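import Pool.Agent.H92.SW.Basic

/-!
# Integral representation of `L(s, χ)` for `Re s > 0` and the bound near `Re s = 1`
-/

namespace Pool.Agent.H92.SW

open Complex Filter Topology MeasureTheory

lemma S_eq_zero_of_lt_one (f : ℕ → ℂ) {t : ℝ} (ht : t < 1) : S f t = 0 := by
  unfold S
  rw [Nat.floor_eq_zero.mpr ht]
  simp

lemma locallyIntegrableOn_S (f : ℕ → ℂ) : LocallyIntegrableOn (S f) (Set.Ici 0) := by
  have h := locallyIntegrableOn_mul_sum_Icc (a := (0 : ℝ)) (m := 1) f le_rfl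
    (g := fun _ => (1 : ℂ)) (locallyIntegrableOn_const 1)
  have h2 : S f = fun t => ∑ k ∈ Finset.Icc 1 ⌊t⌋₊, f k := rfl
  rw [h2]
  simpa using h

lemma mellin_S (f : ℕ → ℂ) (s : ℂ) :
    mellin (S f) (-s) = ∫ t in Set.Ioi (1 : ℝ), S f t * (t : ℂ) ^ (-(s + 1)) := by
  unfold mellin
  have h1 : ∀ t : ℝ, S f t * (t : ℂ) ^ (-(s + 1)) = (t : ℂ) ^ (-s - 1) • S f t := by
    intro t
    rw [smul_eq_mul, mul_comm]
    congr 2
    ring
  simp_rw [h1]
  rw [← integral_Ici_eq_integral_Ioi (x := (1 : ℝ))]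
  refine setIntegral_eq_of_subset_of_forall_sdiff_eq_zero measurableSet_Ioi ?_ ?_
  · intro t ht
    exact zero_lt_one.trans_le (show (1 : ℝ) ≤ t from ht)
  · intro t ht
    have : t < 1 := by
      by_contra h
      exact ht.2 (not_lt.mp h)
    rw [S_eq_zero_of_lt_one f this, smul_zero]

lemma differentiableAt_mellin_S {q : ℕ} [NeZero q] {χ : DirichletCharacter ℂ q} (hχ : χ ≠ 1)
    {s : ℂ} (hs : 0 < s.re) : DifferentiableAt ℂ (fun s => mellin (S (χ ·)) (-s)) s := by
  have h : DifferentiableAt ℂ (mellin (S (χ ·))) (-s) := by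
    refine mellin_differentiableAt_of_isBigO_rpow (a := 0) (b := -s.re - 1)
      ((locallyIntegrableOn_S _).mono_set Set.Ioi_subset_Ici_self) ?_ (by simpa using hs) ?_
      (by simp)
    · refine Asymptotics.IsBigO.of_bound q (Eventually.of_forall fun t => ?_)
      simpa using norm_S_le_level hχ t
    · refine Asymptotics.IsBigO.of_bound 1 ?_
      filter_upwards [Ioo_mem_nhdsGT (show (0 : ℝ) < 1 by norm_num)] with t ht
      rw [S_eq_zero_of_lt_one _ ht.2]
      simp
  exact h.comp s differentiableAt_id.neg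

theorem LFunction_eq_mellin {q : ℕ} [NeZero q] {χ : DirichletCharacter ℂ q} (hχ : χ ≠ 1)
    {s : ℂ} (hs : 0 < s.re) : χ.LFunction s = s * mellin (S (χ ·)) (-s) := by
  have hopen : IsOpen {z : ℂ | 0 < z.re} := isOpen_lt continuous_const continuous_re
  have hpc : IsPreconnected {z : ℂ | 0 < z.re} :=
    (convex_halfSpace_re_gt 0).isPreconnected
  have h1 : AnalyticOnNhd ℂ χ.LFunction {z : ℂ | 0 < z.re} :=
    DifferentiableOn.analyticOnNhd
      (fun z _ => (DirichletCharacter.differentiable_LFunction hχ z).differentiableWithinAt) hopen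
  have h2 : AnalyticOnNhd ℂ (fun s => s * mellin (S (χ ·)) (-s)) {z : ℂ | 0 < z.re} :=
    DifferentiableOn.analyticOnNhd
      (fun z hz => (differentiableAt_id.mul (differentiableAt_mellin_S hχ hz)).differentiableWithinAt)
      hopen
  refine h1.eqOn_of_preconnected_of_eventuallyEq h2 hpc (z₀ := 2) (by simp) ?_ hs
  have hmem : {z : ℂ | 1 < z.re} ∈ 𝓝 (2 : ℂ) :=
    (isOpen_lt continuous_const continuous_re).mem_nhds (by simp)
  filter_upwards [hmem] with z hz
  have hz : 1 < z.re := hz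
  rw [DirichletCharacter.LFunction_eq_LSeries χ hz, mellin_S]
  refine LSeries_eq_mul_integral (fun n => χ n) le_rfl (zero_lt_one.trans hz)
    (DirichletCharacter.LSeriesSummable_of_one_lt_re χ hz) ?_
  refine Asymptotics.IsBigO.of_bound q (Eventually.of_forall fun n => ?_)
  have h3 := norm_S_le_level hχ (n : ℝ)
  simpa [S] using h3

/-- Bound for `L(s, χ)` to the right of `1 - δ`. -/
theorem norm_LFunction_le {q : ℕ} [NeZero q] {χ : DirichletCharacter ℂ q} (hχ : χ ≠ 1)
    {δ : ℝ} (h0 : 0 < δ) (h1 : 2 * δ ≤ 1) {s : ℂ} (hs : 1 - δ ≤ s.re) :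
    ‖χ.LFunction s‖ ≤ ‖s‖ * ((q : ℝ) ^ (2 * δ) / δ) := by
  have hs0 : 0 < s.re := by linarith
  rw [LFunction_eq_mellin hχ hs0, norm_mul, mellin_S]
  refine mul_le_mul_of_nonneg_left ?_ (norm_nonneg _)
  have hb : ∀ t ∈ Set.Ioi (1 : ℝ), ‖S (χ ·) t * (t : ℂ) ^ (-(s + 1))‖ ≤
      (q : ℝ) ^ (2 * δ) * t ^ (-δ - 1) := by
    intro t ht
    have ht1 : (1 : ℝ) < t := ht
    have ht0 : 0 < t := zero_lt_one.trans ht1
    rw [norm_mul, norm_cpow_eq_rpow_re_of_pos ht0]
    have h2 := norm_S_le_rpow hχ ht0.le (δ := 2 * δ) (by linarith) h1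
    calc ‖S (χ ·) t‖ * t ^ (-(s + 1)).re ≤
        ((q : ℝ) ^ (2 * δ) * t ^ (1 - 2 * δ)) * t ^ (-(1 - δ) - 1) := by
          refine mul_le_mul h2 ?_ (by positivity) (by positivity)
          refine Real.rpow_le_rpow_of_exponent_le ht1.le ?_
          simp only [neg_add_rev, add_re, neg_re, one_re]
          linarith
      _ = (q : ℝ) ^ (2 * δ) * t ^ (-δ - 1) := by
          rw [mul_assoc, ← Real.rpow_add ht0]
          congr 2
          ring
  have hint : IntegrableOn (fun t : ℝ => (q : ℝ) ^ (2 * δ) * t ^ (-δ - 1)) (Set.Ioi 1) :=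
    (integrableOn_Ioi_rpow_of_lt (by linarith) zero_lt_one).const_mul _
  refine (norm_integral_le_of_norm_le hint
    ((ae_restrict_iff' measurableSet_Ioi).mpr (Eventually.of_forall hb))).trans ?_
  rw [integral_const_mul, integral_Ioi_rpow_of_lt (by linarith) zero_lt_one]
  rw [Real.one_rpow]
  have : -δ - 1 + 1 = -δ := by ring
  rw [this, neg_div_neg_eq]
  rw [mul_one_div]

end Pool.Agent.H92.SW
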