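import Mathlib

/-!
# Gaussian weights in `log n` by Mellin inversion

For real `u`, `s = σ + iτ`: `exp(-u^2/2) = (2 pi)^(-1/2) * integral over real τ of exp(s^2/2) exp(-s u)`
(Gaussian Fourier transform, e.g. `integral_cexp_quadratic`). With `u = log(n/x)`: `exp(-s u) = n^(-s) x^s`.
Sum over `n` (absolutely convergent for `σ > 1`; `hasSum_integral_of_summable_integral_norm`):
`sum f(n) exp(-(log(n/x))^2/2) = (2 pi)^(-1/2) * integral of exp(s^2/2) x^s D(s)`, `D(s) = sum f(n) n^(-s)`, whose norm is at most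
`x^σ exp(σ^2/2) K * integral exp(-τ^2/2) (|τ|+2)^A`. Let `σ -> 1`.
-/

namespace Pool.Agent.H92.SW

open Complex Filter Topology MeasureTheory

/-- the weight as an integral -/
lemma gauss_kernel (σ u : ℝ) :
    ∫ τ : ℝ, cexp (-(1 / 2 : ℂ) * (τ : ℂ) ^ 2 + (I * (σ - u)) * τ + (σ ^ 2 / 2 - σ * u)) =
      ((2 * Real.pi : ℝ) : ℂ) ^ (1 / 2 : ℂ) * (Real.exp (-u ^ 2 / 2) : ℂ) := by
  rw [integral_cexp_quadratic (by norm_num)]
  congr 1
  · congr 1
    push_cast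
    field_simp
  · rw [Complex.ofReal_exp]
    congr 1
    push_cast
    have hI : (I * ((σ : ℂ) - u)) ^ 2 = -((σ : ℂ) - u) ^ 2 := by
      rw [mul_pow, I_sq]; ring
    rw [hI]
    ring

lemma gauss_term {n : ℕ} (hn : n ≠ 0) {x : ℝ} (hx : 0 < x) (σ τ : ℝ) :
    cexp (-(1 / 2 : ℂ) * (τ : ℂ) ^ 2 + (I * (σ - (Real.log (n / x) : ℝ))) * τ +
        (σ ^ 2 / 2 - σ * (Real.log (n / x) : ℝ))) =
      cexp ((σ + I * τ) ^ 2 / 2) * ((x : ℂ) ^ (σ + I * τ : ℂ) * (n : ℂ) ^ (-(σ + I * τ : ℂ))) := by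
  have hn' : (n : ℂ) ≠ 0 := Nat.cast_ne_zero.2 hn
  have hx' : (x : ℂ) ≠ 0 := Complex.ofReal_ne_zero.2 hx.ne'
  rw [Complex.cpow_def_of_ne_zero hn', Complex.cpow_def_of_ne_zero hx', ← Complex.exp_add,
    ← Complex.exp_add]
  congr 1
  have h1 : (Real.log (n / x) : ℝ) = Real.log n - Real.log x :=
    Real.log_div (by positivity) hx.ne'
  have h2 : Complex.log (n : ℂ) = (Real.log n : ℝ) := by
    rw [← Complex.ofReal_natCast, ← Complex.ofReal_log (by positivity)]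
  have h3 : Complex.log (x : ℂ) = (Real.log x : ℝ) := by
    rw [← Complex.ofReal_log hx.le]
  rw [h1, h2, h3]
  push_cast
  have hI : ((σ : ℂ) + I * τ) ^ 2 = σ ^ 2 + 2 * I * σ * τ - τ ^ 2 := by
    have := I_sq
    linear_combination (τ : ℂ) ^ 2 * this
  rw [hI]
  ring

/-- real bound for the weight -/
lemma gauss_weight_le {n : ℕ} (hn : n ≠ 0) {x : ℝ} (hx : 0 < x) (σ : ℝ) :
    Real.exp (-(Real.log (n / x)) ^ 2 / 2) ≤ Real.exp (σ ^ 2 / 2) * x ^ σ * (n : ℝ) ^ (-σ) := by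
  have hn' : (0 : ℝ) < n := by positivity
  rw [Real.rpow_def_of_pos hn', Real.rpow_def_of_pos hx, ← Real.exp_add, ← Real.exp_add,
    Real.exp_le_exp, Real.log_div hn'.ne' hx.ne']
  nlinarith [sq_nonneg (Real.log n - Real.log x - σ)]

theorem summable_gauss {f : ℕ → ℂ} (h0 : f 0 = 0) {σ : ℝ}
    (hf : Summable (fun n : ℕ => ‖f n‖ * (n : ℝ) ^ (-σ))) {x : ℝ} (hx : 0 < x) :
    Summable (fun n : ℕ => ‖f n‖ * Real.exp (-(Real.log (n / x)) ^ 2 / 2)) := by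
  refine Summable.of_nonneg_of_le (fun n => by positivity) (fun n => ?_)
    (hf.mul_left (Real.exp (σ ^ 2 / 2) * x ^ σ))
  rcases eq_or_ne n 0 with rfl | hn
  · simp [h0]
  · calc ‖f n‖ * Real.exp (-(Real.log (n / x)) ^ 2 / 2)
        ≤ ‖f n‖ * (Real.exp (σ ^ 2 / 2) * x ^ σ * (n : ℝ) ^ (-σ)) := by
          gcongr
          exact gauss_weight_le hn hx σ
      _ = _ := by ring

/-- the majorant -/
lemma gauss_majorant (A : ℝ) :
    Integrable (fun τ : ℝ => Real.exp (-(1 / 2) * τ ^ 2) * (|τ| + 2) ^ A) := by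
  obtain ⟨m, hm⟩ := exists_nat_ge A
  have hint : Integrable (fun τ : ℝ => (m.factorial * Real.exp 3) * Real.exp (-(1 / 4) * τ ^ 2)) :=
    (integrable_exp_neg_mul_sq (by norm_num : (0 : ℝ) < 1 / 4)).const_mul _
  refine hint.mono' ?_ (Eventually.of_forall fun τ => ?_)
  · refine Continuous.aestronglyMeasurable ?_
    refine Continuous.mul (by fun_prop) ?_
    refine Continuous.rpow_const (by fun_prop) (fun τ => Or.inl ?_)
    positivity
  · have h1 : (0 : ℝ) < |τ| + 2 := by positivity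
    rw [Real.norm_of_nonneg (by positivity)]
    have h2 : (|τ| + 2) ^ A ≤ (|τ| + 2) ^ (m : ℝ) :=
      Real.rpow_le_rpow_of_exponent_le (by linarith [abs_nonneg τ]) hm
    rw [Real.rpow_natCast] at h2
    have h3 : (|τ| + 2) ^ m ≤ m.factorial * Real.exp (|τ| + 2) := by
      have := Real.pow_div_factorial_le_exp (|τ| + 2) h1.le m
      rw [div_le_iff₀ (by positivity)] at this
      linarith
    have h4 : |τ| + 2 ≤ τ ^ 2 / 4 + 3 := by
      nlinarith [sq_nonneg (|τ| / 2 - 1), sq_abs τ]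
    calc Real.exp (-(1 / 2) * τ ^ 2) * (|τ| + 2) ^ A
        ≤ Real.exp (-(1 / 2) * τ ^ 2) * (m.factorial * Real.exp (τ ^ 2 / 4 + 3)) := by
          gcongr
          refine h2.trans (h3.trans ?_)
          gcongr
      _ = (m.factorial * Real.exp 3) * Real.exp (-(1 / 4) * τ ^ 2) := by
          rw [Real.exp_add]
          have : Real.exp (-(1 / 2) * τ ^ 2) * Real.exp (τ ^ 2 / 4) = Real.exp (-(1 / 4) * τ ^ 2) := by
            rw [← Real.exp_add]; congr 1; ring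
          rw [← this]; ring

/-- the summands of the expansion -/
noncomputable def gF (f : ℕ → ℂ) (σ x : ℝ) (n : ℕ) (τ : ℝ) : ℂ :=
  f n * cexp (-(1 / 2 : ℂ) * (τ : ℂ) ^ 2 + (I * (σ - (Real.log (n / x) : ℝ))) * τ +
        (σ ^ 2 / 2 - σ * (Real.log (n / x) : ℝ)))

lemma gF_norm (f : ℕ → ℂ) (σ x : ℝ) (n : ℕ) (τ : ℝ) :
    ‖gF f σ x n τ‖ = ‖f n‖ * Real.exp (σ ^ 2 / 2 - σ * Real.log (n / x)) *
      Real.exp (-(1 / 2) * τ ^ 2) := by
  unfold gF
  rw [norm_mul, Complex.norm_exp, mul_assoc ‖f n‖, ← Real.exp_add]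
  congr 2
  have : (-(1 / 2 : ℂ) * (τ : ℂ) ^ 2 + (I * (σ - (Real.log (n / x) : ℝ))) * τ +
        (σ ^ 2 / 2 - σ * (Real.log (n / x) : ℝ))) =
      (((-(1 / 2) * τ ^ 2 + (σ ^ 2 / 2 - σ * Real.log (n / x))) : ℝ) : ℂ) +
        (((σ - Real.log (n / x)) * τ : ℝ) : ℂ) * I := by
    push_cast
    ring
  rw [this, Complex.add_re, Complex.ofReal_re, Complex.re_ofReal_mul, Complex.I_re]
  ring

lemma gauss_sigma (A : ℝ) (f : ℕ → ℂ) (K : ℝ) (h0 : f 0 = 0)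
    (hs : ∀ σ : ℝ, 1 < σ → Summable (fun n : ℕ => ‖f n‖ * (n : ℝ) ^ (-σ)))
    (hb : ∀ s : ℂ, 1 < s.re → s.re ≤ 2 →
      ‖∑' n : ℕ, f n * (n : ℂ) ^ (-s)‖ ≤ K * (|s.im| + 2) ^ A)
    {x : ℝ} (hx : 0 < x) {σ : ℝ} (h1 : 1 < σ) (h2 : σ ≤ 2) :
    ‖∑' n : ℕ, f n * (Real.exp (-(Real.log (n / x)) ^ 2 / 2) : ℂ)‖ * Real.sqrt (2 * Real.pi) ≤
      Real.exp (σ ^ 2 / 2) * x ^ σ * K *
        ∫ τ : ℝ, Real.exp (-(1 / 2) * τ ^ 2) * (|τ| + 2) ^ A := by
  have hgi : Integrable (fun τ : ℝ => Real.exp (-(1 / 2) * τ ^ 2)) :=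
    integrable_exp_neg_mul_sq (by norm_num)
  have hint : ∀ n, Integrable (gF f σ x n) := by
    intro n
    refine (hgi.const_mul (‖f n‖ * Real.exp (σ ^ 2 / 2 - σ * Real.log (n / x)))).mono' ?_
      (Eventually.of_forall fun τ => (gF_norm f σ x n τ).le)
    refine Continuous.aestronglyMeasurable ?_
    unfold gF
    fun_prop
  have hsum : Summable (fun n => ∫ τ, ‖gF f σ x n τ‖) := by
    have : ∀ n, ∫ τ, ‖gF f σ x n τ‖ =
        (‖f n‖ * Real.exp (σ ^ 2 / 2 - σ * Real.log (n / x))) *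
          ∫ τ : ℝ, Real.exp (-(1 / 2) * τ ^ 2) := by
      intro n
      rw [← integral_const_mul]
      exact integral_congr_ae (Eventually.of_forall fun τ => gF_norm f σ x n τ)
    simp_rw [this]
    refine Summable.mul_right _ ?_
    refine ((hs σ h1).mul_left (Real.exp (σ ^ 2 / 2) * x ^ σ)).congr (fun n => ?_)
    rcases eq_or_ne n 0 with rfl | hn
    · simp [h0]
    · have hn' : (0 : ℝ) < n := by positivity
      rw [Real.rpow_def_of_pos hn', Real.rpow_def_of_pos hx, Real.log_div hn'.ne' hx.ne']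
      have : Real.exp (σ ^ 2 / 2 - σ * (Real.log n - Real.log x)) =
          Real.exp (σ ^ 2 / 2) * Real.exp (Real.log x * σ) * Real.exp (Real.log n * -σ) := by
        rw [← Real.exp_add, ← Real.exp_add]; congr 1; ring
      rw [this]; ring
  have hkey := MeasureTheory.hasSum_integral_of_summable_integral_norm hint hsum
  have hterm : ∀ n, ∫ τ, gF f σ x n τ =
      (f n * (Real.exp (-(Real.log (n / x)) ^ 2 / 2) : ℂ)) *
        ((2 * Real.pi : ℝ) : ℂ) ^ (1 / 2 : ℂ) := by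
    intro n
    unfold gF
    rw [integral_const_mul, gauss_kernel]
    ring
  have hval : (∑' n : ℕ, f n * (Real.exp (-(Real.log (n / x)) ^ 2 / 2) : ℂ)) *
      ((2 * Real.pi : ℝ) : ℂ) ^ (1 / 2 : ℂ) = ∫ τ, ∑' n, gF f σ x n τ := by
    rw [← hkey.tsum_eq, ← tsum_mul_right]
    exact tsum_congr (fun n => (hterm n).symm)
  have hnorm : ‖((2 * Real.pi : ℝ) : ℂ) ^ (1 / 2 : ℂ)‖ = Real.sqrt (2 * Real.pi) := by
    rw [Complex.norm_cpow_eq_rpow_re_of_pos (by positivity), Real.sqrt_eq_rpow]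
    norm_num
  rw [← hnorm, ← norm_mul, hval, ← integral_const_mul]
  refine norm_integral_le_of_norm_le ((gauss_majorant A).const_mul _)
    (Eventually.of_forall fun τ => ?_)
  have hpt : ∑' n, gF f σ x n τ = cexp ((σ + I * τ) ^ 2 / 2) * (x : ℂ) ^ (σ + I * τ : ℂ) *
      ∑' n : ℕ, f n * (n : ℂ) ^ (-(σ + I * τ : ℂ)) := by
    rw [← tsum_mul_left]
    refine tsum_congr (fun n => ?_)
    rcases eq_or_ne n 0 with rfl | hn
    · simp [gF, h0]
    · unfold gF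
      rw [gauss_term hn hx]
      ring
  rw [hpt, norm_mul, norm_mul]
  have hre : (σ + I * τ : ℂ).re = σ := by simp
  have him : (σ + I * τ : ℂ).im = τ := by simp
  have hb' := hb (σ + I * τ) (by rw [hre]; exact h1) (by rw [hre]; exact h2)
  rw [him] at hb'
  have he : ‖cexp ((σ + I * τ) ^ 2 / 2)‖ = Real.exp (σ ^ 2 / 2) * Real.exp (-(1 / 2) * τ ^ 2) := by
    rw [Complex.norm_exp, ← Real.exp_add]
    congr 1
    have : ((σ + I * τ) ^ 2 / 2 : ℂ) = ((σ ^ 2 / 2 + -(1 / 2) * τ ^ 2 : ℝ) : ℂ) +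
        ((σ * τ : ℝ) : ℂ) * I := by
      push_cast
      have := I_sq
      linear_combination ((τ : ℂ) ^ 2 / 2) * this
    rw [this, Complex.add_re, Complex.ofReal_re, Complex.re_ofReal_mul, Complex.I_re]
    ring
  have hxp : ‖(x : ℂ) ^ (σ + I * τ : ℂ)‖ = x ^ σ := by
    rw [Complex.norm_cpow_eq_rpow_re_of_pos hx, hre]
  rw [he, hxp]
  calc Real.exp (σ ^ 2 / 2) * Real.exp (-(1 / 2) * τ ^ 2) * x ^ σ *
        ‖∑' n : ℕ, f n * (n : ℂ) ^ (-(σ + I * τ : ℂ))‖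
      ≤ Real.exp (σ ^ 2 / 2) * Real.exp (-(1 / 2) * τ ^ 2) * x ^ σ *
        (K * (|τ| + 2) ^ A) := by gcongr
    _ = _ := by ring

theorem gauss_bound (A : ℝ) : ∃ C : ℝ, 0 < C ∧ ∀ (f : ℕ → ℂ) (K : ℝ), f 0 = 0 →
    (∀ σ : ℝ, 1 < σ → Summable (fun n : ℕ => ‖f n‖ * (n : ℝ) ^ (-σ))) →
    (∀ s : ℂ, 1 < s.re → s.re ≤ 2 → ‖∑' n : ℕ, f n * (n : ℂ) ^ (-s)‖ ≤ K * (|s.im| + 2) ^ A) →
    ∀ x : ℝ, 0 < x →
      ‖∑' n : ℕ, f n * (Real.exp (-(Real.log (n / x)) ^ 2 / 2) : ℂ)‖ ≤ C * K * x := by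
  set J := ∫ τ : ℝ, Real.exp (-(1 / 2) * τ ^ 2) * (|τ| + 2) ^ A with hJ
  have hJ0 : 0 ≤ J := integral_nonneg (fun τ => by positivity)
  refine ⟨Real.exp (1 / 2) * (J + 1) / Real.sqrt (2 * Real.pi), by positivity, ?_⟩
  intro f K h0 hs hb x hx
  have hK : 0 ≤ K := by
    have h := (norm_nonneg _).trans (hb 2 (by norm_num) (by norm_num))
    have h2 : (0 : ℝ) < (|(2 : ℂ).im| + 2) ^ A := by positivity
    exact nonneg_of_mul_nonneg_left h h2
  have hlim : Tendsto (fun σ : ℝ => Real.exp (σ ^ 2 / 2) * x ^ σ * K * J) (𝓝[>] 1)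
      (𝓝 (Real.exp ((1 : ℝ) ^ 2 / 2) * x ^ (1 : ℝ) * K * J)) := by
    have hc : Continuous (fun σ : ℝ => Real.exp (σ ^ 2 / 2) * x ^ σ * K * J) := by
      have : Continuous (fun σ : ℝ => x ^ σ) := Real.continuous_const_rpow hx.ne'
      fun_prop
    exact (hc.tendsto 1).mono_left nhdsWithin_le_nhds
  have hle := ge_of_tendsto hlim (b := ‖∑' n : ℕ, f n *
      (Real.exp (-(Real.log (n / x)) ^ 2 / 2) : ℂ)‖ * Real.sqrt (2 * Real.pi)) (by
    have : Set.Ioc (1 : ℝ) 2 ∈ 𝓝[>] (1 : ℝ) := Ioc_mem_nhdsGT (by norm_num)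
    filter_upwards [this] with σ hσ
    exact gauss_sigma A f K h0 hs hb hx hσ.1 hσ.2)
  rw [Real.rpow_one] at hle
  have hsq : (0 : ℝ) < Real.sqrt (2 * Real.pi) := by positivity
  rw [div_mul_eq_mul_div, div_mul_eq_mul_div, le_div_iff₀ hsq]
  refine hle.trans ?_
  norm_num
  have : 0 ≤ Real.exp (1 / 2) * K * x := by positivity
  nlinarith

end Pool.Agent.H92.SW
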