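import Pool.Agent.H92.SW.Sieg2

/-!
# Theorem of Siegel, step 3: lower bound for the residue when `F(β) ≤ 0`

Taylor expansion of the entire function `G` at `2` (`Complex.hasSum_taylorSeries_of_entire`), evaluated at `β`:
`G(β) = sum_k g_k (2-β)^k`, `g_k = (-1)^k G^(k)(2)/k! = b_k - lam` with `b_k = (-1)^k F^(k)(2)/k! >= 0`, `Re b_0 >= 1/8`,
and `norm g_k <= C m^2 (2/3)^k`, `m = a b` (`G_coeff`). Since `9/10 <= β`, `(2/3)(2-β) <= 11/15 <= 3/4`, the tail `k >= M` is at most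
`4 C m^2 (3/4)^M`. Take `M = ceil (log(64 C m^2)/log(4/3))`, so the tail is at most `1/16`, `M <= C' (1 + log m)`. Then with `L = norm lam`:
`Re G(β) >= 1/8 - L sum_{k<M} (2-β)^k - 1/16`, `sum_{k<M} (2-β)^k = ((2-β)^M - 1)/(1-β)`, and
`Re G(β) = Re F(β) + Re lam/(1-β) <= L/(1-β)`. So `1/16 <= L (2-β)^M/(1-β)`, and `(2-β)^M <= exp((1-β) M)`.
-/

namespace Pool.Agent.H92.SW

open Complex Filter Topology MeasureTheory
open scoped ComplexOrder

/-- Lower bound for a series with nonnegative coefficients after subtraction of a pole. -/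
lemma s3_series {r : ℕ → ℝ} {g L K β : ℝ} {M : ℕ} (hM : 1 ≤ M) (hβ1 : β < 1)
    (hr : HasSum r g)
    (h0 : ∀ n, -(L * (2 - β) ^ n) + (if n = 0 then 1 / 8 else 0) ≤ r n)
    (h1 : ∀ n, |r n| ≤ K * (3 / 4) ^ n) (hMK : 4 * K * (3 / 4) ^ M ≤ 1 / 16)
    (hg : g ≤ L / (1 - β)) : 1 / 16 * (1 - β) ≤ L * (2 - β) ^ M := by
  have hsum := hr.summable.sum_add_tsum_nat_add M
  rw [hr.tsum_eq] at hsum
  have hgeo : Summable fun n : ℕ => K * (3 / 4 : ℝ) ^ (n + M) := by
    have : Summable fun n : ℕ => (3 / 4 : ℝ) ^ n :=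
      summable_geometric_of_lt_one (by norm_num) (by norm_num)
    exact ((summable_nat_add_iff M).mpr this).mul_left K
  have hgt : ∑' n : ℕ, K * (3 / 4 : ℝ) ^ (n + M) = 4 * K * (3 / 4) ^ M := by
    have h2 : ∀ n : ℕ, K * (3 / 4 : ℝ) ^ (n + M) = (K * (3 / 4) ^ M) * (3 / 4) ^ n := by
      intro n; rw [pow_add]; ring
    simp_rw [h2]
    rw [tsum_mul_left, tsum_geometric_of_lt_one (by norm_num) (by norm_num)]
    ring
  have htail : -(1 / 16 : ℝ) ≤ ∑' n : ℕ, r (n + M) := by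
    have h3 : ‖∑' n : ℕ, r (n + M)‖ ≤ ∑' n : ℕ, K * (3 / 4 : ℝ) ^ (n + M) :=
      tsum_of_norm_bounded hgeo.hasSum (fun n => h1 (n + M))
    rw [hgt, Real.norm_eq_abs] at h3
    have := neg_le_of_abs_le (h3.trans hMK)
    linarith
  have hhead : 1 / 8 - L * (((2 - β) ^ M - 1) / (1 - β)) ≤ ∑ n ∈ Finset.range M, r n := by
    have h4 : ∑ n ∈ Finset.range M, (-(L * (2 - β) ^ n) + (if n = 0 then (1 / 8 : ℝ) else 0)) ≤
        ∑ n ∈ Finset.range M, r n := Finset.sum_le_sum fun n _ => h0 n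
    refine le_trans (le_of_eq ?_) h4
    rw [Finset.sum_add_distrib, Finset.sum_neg_distrib, ← Finset.mul_sum,
      geom_sum_eq (by linarith), Finset.sum_ite_eq' (Finset.range M) 0 (fun _ => (1 / 8 : ℝ)),
      if_pos (Finset.mem_range.mpr hM)]
    rw [show (2 - β - 1 : ℝ) = 1 - β by ring]
    ring
  have hb : 0 < 1 - β := by linarith
  have h5 : 1 / 16 ≤ L * ((2 - β) ^ M / (1 - β)) := by
    have h6 : L * (((2 - β) ^ M - 1) / (1 - β)) + L / (1 - β) = L * ((2 - β) ^ M / (1 - β)) := by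
      field_simp
      ring
    linarith
  calc 1 / 16 * (1 - β) ≤ L * ((2 - β) ^ M / (1 - β)) * (1 - β) :=
        mul_le_mul_of_nonneg_right h5 hb.le
    _ = L * (2 - β) ^ M := by field_simp

/-- The coefficients. -/
lemma s3_coeff {a b : ℕ} [NeZero a] [NeZero b] {χ : DirichletCharacter ℂ a}
    {ψ : DirichletCharacter ℂ b} (hχ : χ ^ 2 = 1) (hψ : ψ ^ 2 = 1) (h1 : χ ≠ 1) (h2 : ψ ≠ 1)
    (h3 : prodChar χ ψ ≠ 1) (n : ℕ) :
    -(‖lam χ ψ‖ * n.factorial) + (if n = 0 then 1 / 8 else 0) ≤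
      ((-1) ^ n * iteratedDeriv n (G χ ψ) 2).re := by
  have hpos := F_alternating hχ hψ n
  have hre : 0 ≤ ((-1) ^ n * iteratedDeriv n (F χ ψ) 2).re := (Complex.nonneg_iff.mp hpos).1
  have heq : (-1 : ℂ) ^ n * iteratedDeriv n (G χ ψ) 2 =
      (-1) ^ n * iteratedDeriv n (F χ ψ) 2 - lam χ ψ * n.factorial := by
    rw [G_iteratedDeriv h1 h2 h3, mul_sub]
    congr 1
    have h11 : (-1 : ℂ) ^ n * (-1) ^ n = 1 := by rw [← mul_pow]; simp
    calc (-1 : ℂ) ^ n * (lam χ ψ * ((-1) ^ n * n.factorial)) =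
        ((-1 : ℂ) ^ n * (-1) ^ n) * (lam χ ψ * n.factorial) := by ring
      _ = lam χ ψ * n.factorial := by rw [h11, one_mul]
  have hl : (lam χ ψ * n.factorial).re ≤ ‖lam χ ψ‖ * n.factorial := by
    rw [show ((n.factorial : ℕ) : ℂ) = ((n.factorial : ℝ) : ℂ) by push_cast; rfl, re_mul_ofReal]
    exact mul_le_mul_of_nonneg_right (Complex.re_le_norm _) (by positivity)
  rw [heq, sub_re]
  split_ifs with hn
  · subst hn
    have h8 := F_two hχ hψ
    simp only [pow_zero, one_mul, iteratedDeriv_zero] at hre ⊢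
    simp only [Nat.factorial_zero, Nat.cast_one, mul_one] at hl ⊢
    linarith
  · linarith

theorem residue_lower : ∃ c : ℝ, 0 < c ∧ ∃ C : ℝ, 0 < C ∧
    ∀ (a b : ℕ) [NeZero a] [NeZero b] (χ : DirichletCharacter ℂ a)
    (ψ : DirichletCharacter ℂ b), χ ^ 2 = 1 → ψ ^ 2 = 1 → χ ≠ 1 → ψ ≠ 1 → prodChar χ ψ ≠ 1 →
    ∀ β : ℝ, 9 / 10 ≤ β → β < 1 → (F χ ψ β).re ≤ 0 →
    c * (1 - β) * ((a : ℝ) * b) ^ (-(C * (1 - β))) ≤ ‖lam χ ψ‖ := by
  obtain ⟨C, hC, hcoeff⟩ := G_coeff
  set l43 : ℝ := Real.log (4 / 3) with hl43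
  have hl43pos : 0 < l43 := Real.log_pos (by norm_num)
  set A : ℝ := |Real.log (64 * C)| with hA
  have hA0 : 0 ≤ A := abs_nonneg _
  set C' : ℝ := (A + 2) / l43 + 2 with hC'
  have hC'pos : 0 < C' := by positivity
  refine ⟨Real.exp (-C') / 16, by positivity, C', hC'pos, ?_⟩
  intro a b _ _ χ ψ hχ hψ h1 h2 h3 β hβ hβ1 hF
  set m : ℝ := (a : ℝ) * b with hm
  have ha1 : (1 : ℝ) ≤ a := by exact_mod_cast Nat.one_le_iff_ne_zero.mpr (NeZero.ne a)
  have hb1 : (1 : ℝ) ≤ b := by exact_mod_cast Nat.one_le_iff_ne_zero.mpr (NeZero.ne b)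
  have hm1 : 1 ≤ m := by nlinarith
  have hm0 : 0 < m := by linarith
  have hlm : 0 ≤ Real.log m := Real.log_nonneg hm1
  set x : ℝ := (A + 2 * Real.log m) / l43 with hx
  have hx0 : 0 ≤ x := by positivity
  set M : ℕ := ⌈x⌉₊ + 1 with hM
  have hMx : x ≤ M := by
    rw [hM]; push_cast
    linarith [Nat.le_ceil x]
  have hMx2 : (M : ℝ) ≤ C' * (1 + Real.log m) := by
    rw [hM]; push_cast
    have h4 := Nat.ceil_lt_add_one hx0
    have h5 : x + 2 ≤ C' * (1 + Real.log m) := by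
      rw [hC', hx]
      have h6 : ((A + 2) / l43 + 2) * (1 + Real.log m) =
          (A + 2 * Real.log m) / l43 + 2 + (2 / l43 + (A / l43) * Real.log m + 2 * Real.log m) := by
        field_simp; ring
      rw [h6]
      have : 0 ≤ 2 / l43 + (A / l43) * Real.log m + 2 * Real.log m := by positivity
      linarith
    linarith
  -- the tail
  set K : ℝ := C * m ^ 2 with hK
  have hK0 : 0 < K := by positivity
  have hMK : 4 * K * (3 / 4) ^ M ≤ 1 / 16 := by
    have h6 : 64 * K ≤ (4 / 3 : ℝ) ^ M := by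
      rw [← Real.rpow_natCast, Real.rpow_def_of_pos (by norm_num)]
      have h7 : Real.log (64 * K) ≤ Real.log (4 / 3) * M := by
        have h8 : Real.log (64 * K) = Real.log (64 * C) + 2 * Real.log m := by
          rw [hK, show 64 * (C * m ^ 2) = (64 * C) * m ^ 2 by ring,
            Real.log_mul (by positivity) (by positivity), Real.log_pow]
          push_cast; ring
        have h9 : x * l43 = A + 2 * Real.log m := by rw [hx]; field_simp
        have h10 : x * l43 ≤ M * l43 := mul_le_mul_of_nonneg_right hMx hl43pos.le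
        have h11 : Real.log (64 * C) ≤ A := le_abs_self _
        rw [h8]
        have h12 : Real.log (4 / 3) * M = M * l43 := by rw [hl43]; ring
        rw [h12]
        linarith
      calc 64 * K = Real.exp (Real.log (64 * K)) := (Real.exp_log (by positivity)).symm
        _ ≤ _ := Real.exp_le_exp.mpr h7
    have h12 : (3 / 4 : ℝ) ^ M = ((4 / 3 : ℝ) ^ M)⁻¹ := by
      rw [← inv_pow]; norm_num
    rw [h12]
    have h13 : 0 < (4 / 3 : ℝ) ^ M := by positivity
    rw [← div_eq_mul_inv, div_le_iff₀ h13]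
    linarith
  -- the series
  have hG := G_differentiable h1 h2 h3
  have hsum := Complex.hasSum_re (Complex.hasSum_taylorSeries_of_entire hG 2 (β : ℂ))
  have hterm : ∀ n : ℕ, (((n.factorial : ℂ))⁻¹ • ((β : ℂ) - 2) ^ n • iteratedDeriv n (G χ ψ) 2).re =
      ((2 - β) ^ n / n.factorial) * ((-1) ^ n * iteratedDeriv n (G χ ψ) 2).re := by
    intro n
    rw [← re_ofReal_mul]
    congr 1
    rw [smul_eq_mul, smul_eq_mul]
    push_cast
    rw [show ((β : ℂ) - 2) = (2 - (β : ℂ)) * (-1) by ring, mul_pow]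
    ring
  simp_rw [hterm] at hsum
  have h2β : 0 < 2 - β := by linarith
  have hser := s3_series (M := M) (K := K) (L := ‖lam χ ψ‖) (by omega) hβ1 hsum ?_ ?_
    hMK ?_
  · -- conclusion
    have h20 : (2 - β) ^ M ≤ Real.exp C' * m ^ (C' * (1 - β)) := by
      have h21 : (2 - β) ^ M ≤ Real.exp ((1 - β) * M) := by
        have : 2 - β ≤ Real.exp (1 - β) := by
          have := Real.add_one_le_exp (1 - β); linarith
        calc (2 - β) ^ M ≤ (Real.exp (1 - β)) ^ M := pow_le_pow_left₀ h2β.le this M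
          _ = Real.exp ((1 - β) * M) := by rw [← Real.exp_nat_mul]; ring_nf
      refine h21.trans ?_
      rw [Real.rpow_def_of_pos hm0, ← Real.exp_add]
      refine Real.exp_le_exp.mpr ?_
      have h22 : (1 - β) * M ≤ (1 - β) * (C' * (1 + Real.log m)) :=
        mul_le_mul_of_nonneg_left hMx2 (by linarith)
      have h23 : (1 - β) * C' ≤ C' := by nlinarith
      calc (1 - β) * (M : ℝ) ≤ (1 - β) * (C' * (1 + Real.log m)) := h22
        _ = (1 - β) * C' + Real.log m * (C' * (1 - β)) := by ring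
        _ ≤ C' + Real.log m * (C' * (1 - β)) := by linarith
    have h24 : 1 / 16 * (1 - β) ≤ ‖lam χ ψ‖ * (Real.exp C' * m ^ (C' * (1 - β))) :=
      hser.trans (mul_le_mul_of_nonneg_left h20 (norm_nonneg _))
    rw [Real.rpow_neg hm0.le, Real.exp_neg]
    have h25 : 0 < m ^ (C' * (1 - β)) := Real.rpow_pos_of_pos hm0 _
    have h26 : 0 < Real.exp C' := Real.exp_pos _
    have h27 : (Real.exp C')⁻¹ / 16 * (1 - β) * (m ^ (C' * (1 - β)))⁻¹ =
        (1 / 16 * (1 - β)) / (Real.exp C' * m ^ (C' * (1 - β))) := by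
      field_simp
    rw [h27, div_le_iff₀ (by positivity)]
    exact h24
  · intro n
    have h30 := s3_coeff hχ hψ h1 h2 h3 n
    have hf : (0 : ℝ) < n.factorial := by positivity
    have hp : 0 < (2 - β) ^ n / (n.factorial : ℝ) := by positivity
    have h31 := mul_le_mul_of_nonneg_left h30 hp.le
    refine le_trans (le_of_eq ?_) h31
    split_ifs with hn
    · subst hn; simp
    · field_simp; ring
  · intro n
    have hf : (0 : ℝ) < n.factorial := by positivity
    have hp : 0 < (2 - β) ^ n / (n.factorial : ℝ) := by positivity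
    have h40 : |((-1) ^ n * iteratedDeriv n (G χ ψ) 2).re| ≤
        n.factorial * (C * m ^ 2 * (2 / 3) ^ n) := by
      refine (Complex.abs_re_le_norm _).trans ?_
      rw [norm_mul, norm_pow, norm_neg, norm_one, one_pow, one_mul]
      exact hcoeff a b χ ψ h1 h2 h3 n
    rw [abs_mul, abs_of_pos hp]
    calc (2 - β) ^ n / (n.factorial : ℝ) * |((-1) ^ n * iteratedDeriv n (G χ ψ) 2).re| ≤
        (2 - β) ^ n / (n.factorial : ℝ) * (n.factorial * (C * m ^ 2 * (2 / 3) ^ n)) :=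
          mul_le_mul_of_nonneg_left h40 hp.le
      _ = K * ((2 - β) * (2 / 3)) ^ n := by
          have h41 : (2 - β) ^ n / (n.factorial : ℝ) *
              (n.factorial * (C * m ^ 2 * (2 / 3) ^ n)) =
              (n.factorial / n.factorial) * (K * ((2 - β) ^ n * (2 / 3) ^ n)) := by rw [hK]; ring
          rw [h41, div_self hf.ne', one_mul, mul_pow]
      _ ≤ K * (3 / 4) ^ n := by
          refine mul_le_mul_of_nonneg_left ?_ hK0.le
          refine pow_le_pow_left₀ (by positivity) ?_ n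
          linarith
  · have hne : (β : ℂ) ≠ 1 := by
      intro h; rw [ofReal_eq_one] at h; linarith
    rw [G_eq χ ψ hne, sub_re]
    have h50 : (lam χ ψ / ((β : ℂ) - 1)).re = -((lam χ ψ).re / (1 - β)) := by
      rw [show ((β : ℂ) - 1) = (((β - 1 : ℝ)) : ℂ) by push_cast; ring, div_ofReal_re]
      rw [← neg_sub 1 β, div_neg]
    rw [h50]
    have h51 : (lam χ ψ).re / (1 - β) ≤ ‖lam χ ψ‖ / (1 - β) :=
      div_le_div_of_nonneg_right (Complex.re_le_norm _) (by linarith)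
    linarith

end Pool.Agent.H92.SW
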