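import Pool.Agent.H92.SW.Sieg1

/-!
# Theorem of Siegel, step 4: real values and signs on the real line

`LFunction_real`: by `LFunction_eq_mellin` and `mellin_S`, `L(σ,χ) = σ * integral of S(t) t^(-σ-1)` with real `S(t)`
(`χ^2 = 1` gives `conj (χ n) = χ n`); or the identity principle as in `riemannZeta_conj`.
`LFunction_pos_of_no_zero`: `σ ↦ Re L(σ,χ)` is continuous on `[β, 2]`, positive at `2` (`LFunction_pos`), and nonzero on `[β,2]`
(hypothesis for `σ < 1`, `DirichletCharacter.LFunction_ne_zero_of_one_le_re` for `σ >= 1`, and `LFunction_real`), so positive.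
`zeta_neg`: `(s-1) zeta(s) -> 1` (`riemannZeta_residue_one`) so `Re ((σ-1) zeta(σ)) > 0` for `σ` close to `1`.
-/

namespace Pool.Agent.H92.SW

open Complex Filter Topology MeasureTheory
open scoped ComplexOrder

lemma LFunction_real {a : ℕ} [NeZero a] {χ : DirichletCharacter ℂ a} (hχ : χ ^ 2 = 1)
    (h1 : χ ≠ 1) {σ : ℝ} (hσ : 0 < σ) : (χ.LFunction σ).im = 0 := by
  have hval : ∀ n : ℕ, (χ n).im = 0 := by
    intro n
    rcases (MulChar.isQuadratic_iff_sq_eq_one.mpr hχ) (n : ZMod a) with h | h | h <;> rw [h] <;> simp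
  have hS : ∀ t : ℝ, S (χ ·) t = (((S (χ ·) t).re : ℝ) : ℂ) := by
    intro t
    apply Complex.ext
    · simp
    · simp only [ofReal_im]
      unfold S
      rw [Complex.im_sum]
      exact Finset.sum_eq_zero fun n _ => hval n
  have hint : mellin (S (χ ·)) (-(σ : ℂ)) =
      ((∫ t in Set.Ioi (1 : ℝ), (S (χ ·) t).re * t ^ (-(σ + 1)) : ℝ) : ℂ) := by
    rw [mellin_S, ← integral_complex_ofReal]
    refine setIntegral_congr_fun measurableSet_Ioi ?_
    intro t ht
    have ht0 : (0 : ℝ) < t := zero_lt_one.trans ht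
    show S (χ ·) t * (t : ℂ) ^ (-((σ : ℂ) + 1)) =
      ((((S (χ ·) t).re * t ^ (-(σ + 1)) : ℝ)) : ℂ)
    rw [ofReal_mul, ← hS t, ofReal_cpow ht0.le]
    push_cast
    rfl
  rw [LFunction_eq_mellin h1 (s := (σ : ℂ)) (by simpa using hσ), hint, ← ofReal_mul, ofReal_im]

lemma LFunction_pos_of_no_zero {a : ℕ} [NeZero a] {χ : DirichletCharacter ℂ a} (hχ : χ ^ 2 = 1)
    (h1 : χ ≠ 1) {β : ℝ} (hβ : 0 < β)
    (hno : ∀ σ : ℝ, β ≤ σ → σ < 1 → χ.LFunction σ ≠ 0) : 0 < χ.LFunction β := by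
  rcases lt_or_ge 1 β with hβ1 | hβ1
  · exact LFunction_pos hχ hβ1
  have him : (χ.LFunction β).im = 0 := LFunction_real hχ h1 hβ
  have hcont : Continuous fun x : ℝ => (χ.LFunction (x : ℂ)).re :=
    Complex.continuous_re.comp
      ((DirichletCharacter.differentiable_LFunction h1).continuous.comp Complex.continuous_ofReal)
  have h2 : 0 < (χ.LFunction ((2 : ℝ) : ℂ)).re :=
    (Complex.pos_iff.mp (LFunction_pos hχ (x := 2) (by norm_num))).1
  rw [Complex.pos_iff]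
  refine ⟨?_, him.symm⟩
  by_contra hcon
  have hle : (χ.LFunction (β : ℂ)).re ≤ 0 := not_lt.mp hcon
  obtain ⟨x, hx, hx0⟩ := intermediate_value_Icc (show β ≤ 2 by linarith) hcont.continuousOn
    (show (0 : ℝ) ∈ Set.Icc _ _ from ⟨hle, h2.le⟩)
  have hx0' : (χ.LFunction (x : ℂ)).re = 0 := hx0
  have hz : χ.LFunction (x : ℂ) = 0 :=
    Complex.ext hx0' (LFunction_real hχ h1 (lt_of_lt_of_le hβ hx.1))
  rcases lt_or_ge x 1 with hx1 | hx1
  · exact hno x hx.1 hx1 hz
  · exact DirichletCharacter.LFunction_ne_zero_of_one_le_re χ (Or.inl h1) (by simpa using hx1) hz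

lemma zeta_neg : ∃ δ : ℝ, 0 < δ ∧ ∀ σ : ℝ, 1 - δ < σ → σ < 1 → (riemannZeta σ).re < 0 := by
  have h := riemannZeta_residue_one
  have hev : ∀ᶠ s : ℂ in 𝓝[≠] 1, ‖(s - 1) * riemannZeta s - 1‖ < 1 / 2 := by
    have := h.sub_const 1
    rw [sub_self] at this
    have h2 := this.norm
    rw [norm_zero] at h2
    exact h2.eventually_lt_const (by norm_num)
  rw [eventually_nhdsWithin_iff, Metric.eventually_nhds_iff] at hev
  obtain ⟨δ, hδ, hd⟩ := hev
  refine ⟨δ, hδ, fun σ h1 h2 => ?_⟩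
  have hdist : dist (σ : ℂ) 1 < δ := by
    rw [dist_eq_norm, show (σ : ℂ) - 1 = ((σ - 1 : ℝ) : ℂ) by push_cast; ring, norm_real,
      Real.norm_eq_abs, abs_lt]
    constructor <;> linarith
  have hne : (σ : ℂ) ∈ ({1}ᶜ : Set ℂ) := by
    simp only [Set.mem_compl_iff, Set.mem_singleton_iff]
    intro hh
    rw [ofReal_eq_one] at hh
    linarith
  have h3 := hd hdist hne
  have h4 : |(((σ : ℂ) - 1) * riemannZeta σ - 1).re| < 1 / 2 :=
    lt_of_le_of_lt (Complex.abs_re_le_norm _) h3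
  rw [show (σ : ℂ) - 1 = ((σ - 1 : ℝ) : ℂ) by push_cast; ring, sub_re, re_ofReal_mul, one_re,
    abs_lt] at h4
  by_contra hcon
  have hcon' := not_lt.mp hcon
  have : (σ - 1) * (riemannZeta σ).re ≤ 0 :=
    mul_nonpos_of_nonpos_of_nonneg (by linarith) hcon'
  linarith [h4.1]

end Pool.Agent.H92.SW
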