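import Pool.Agent.H92.SW.LowerB
import Pool.Agent.H92.SW.Sieg3
import Pool.Agent.H92.SW.Sieg4

/-!
# Theorem of Siegel, step 5: conclusion

Let `eps > 0`, `c, C` from `residue_lower`, `δ0` from `zeta_neg`, `η = min (1/10) (min δ0 (eps/(4C)))/1` (so `C η <= eps/4`).

Case A: there are `q1` and a quadratic `χ1 <> 1` mod `q1` and `β` real in `(1-η, 1)` with `L(β,χ1) = 0`. Then `F(β) = 0` for every `ψ`.
Case B: there are none. If there is no quadratic primitive nonprincipal character at all the claim is empty; otherwise fix one, `χ1`, and put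
`β = 1 - η/2`. For all quadratic nonprincipal `ψ` with `prodChar χ1 ψ <> 1` the three L-values at `β` are positive
(`LFunction_pos_of_no_zero`) and `Re zeta(β) < 0`, so `Re F(β) <= 0`.

In both cases for every quadratic nonprincipal `ψ` mod `q` with `prodChar χ1 ψ <> 1` (`residue_lower`):
`c (1-β) (q1 q)^(-eps/4) <= norm (L(1,χ1)) norm (L(1,ψ)) norm (L(1,χ1 ψ))`, and
`norm (L(1,χ1 ψ)) <= (q1 q)^(2δ)/δ` (`norm_LFunction_le`, `s = 1`), `δ = min (eps/8) (1/2)`. So `norm (L(1,ψ)) >= c' q^(-eps)`.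

If `ψ` is primitive mod `q > q1`, then `prodChar χ1 ψ <> 1`: otherwise the lifts of `χ1` and `ψ` to `q1 q` are inverse to each other,
hence equal (`χ1^2 = 1`), so the lift of `ψ` factors through `q1` and its conductor, which is `q`
(`conductor_changeLevel`, `IsPrimitive`), divides `q1` (`conductor_dvd_of_mem_conductorSet`).
There are finitely many `ψ` with `q <= q1`, and `L(1,ψ) <> 0` (`DirichletCharacter.LFunction_apply_one_ne_zero`): take the minimum.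
-/

namespace Pool.Agent.H92.SW

open Complex Filter Topology MeasureTheory
open scoped ComplexOrder

/-- A primitive quadratic character of larger modulus is independent of a given quadratic one. -/
lemma prodChar_ne_one {a b : ℕ} [NeZero a] [NeZero b] {χ : DirichletCharacter ℂ a}
    {ψ : DirichletCharacter ℂ b} (hχ : χ ^ 2 = 1) (hψ : ψ.IsPrimitive) (hab : a < b) :
    prodChar χ ψ ≠ 1 := by
  intro h
  have hab0 : a * b ≠ 0 := Nat.mul_ne_zero (NeZero.ne a) (NeZero.ne b)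
  have : NeZero (a * b) := ⟨hab0⟩
  have h1 : DirichletCharacter.changeLevel (Dvd.intro_left a rfl : b ∣ a * b) ψ =
      (DirichletCharacter.changeLevel (Dvd.intro b rfl : a ∣ a * b) χ)⁻¹ := by
    exact eq_inv_of_mul_eq_one_right h
  have h2 := congrArg DirichletCharacter.conductor h1
  rw [DirichletCharacter.conductor_changeLevel, DirichletCharacter.conductor_inv,
    DirichletCharacter.conductor_changeLevel] at h2
  have h3 : ψ.conductor = b := hψ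
  have h4 : ψ.conductor ∣ a := by
    rw [h2]; exact χ.conductor_dvd_level
  rw [h3] at h4
  exact absurd (Nat.le_of_dvd (Nat.pos_of_ne_zero (NeZero.ne a)) h4) (by omega)

/-- Finitely many moduli: a positive lower bound. -/
lemma small_moduli (Q : ℕ) : ∃ c : ℝ, 0 < c ∧ ∀ (q : ℕ) [NeZero q] (χ : DirichletCharacter ℂ q),
    q ≤ Q → χ ≠ 1 → c ≤ ‖χ.LFunction 1‖ := by
  induction Q with
  | zero =>
    refine ⟨1, one_pos, fun q _ χ hq _ => ?_⟩
    exact absurd (Nat.le_zero.mp hq) (NeZero.ne q)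
  | succ Q ih =>
    obtain ⟨c, hc, h⟩ := ih
    classical
    have : NeZero (Q + 1) := ⟨Nat.succ_ne_zero Q⟩
    have hex : ∃ c' : ℝ, 0 < c' ∧ ∀ χ : DirichletCharacter ℂ (Q + 1), χ ≠ 1 →
        c' ≤ ‖χ.LFunction 1‖ := by
      obtain ⟨χ0, h0⟩ := Finite.exists_min (fun χ : DirichletCharacter ℂ (Q + 1) =>
        if χ = 1 then (1 : ℝ) else ‖χ.LFunction 1‖)
      refine ⟨if χ0 = 1 then (1 : ℝ) else ‖χ0.LFunction 1‖, ?_, fun χ hχ => ?_⟩
      · split_ifs with hh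
        · exact one_pos
        · exact norm_pos_iff.mpr (DirichletCharacter.LFunction_apply_one_ne_zero hh)
      · have := h0 χ
        simpa [hχ] using this
    obtain ⟨c', hc', h'⟩ := hex
    refine ⟨min c c', lt_min hc hc', fun q _ χ hq hχ => ?_⟩
    rcases Nat.lt_or_ge q (Q + 1) with hlt | hge
    · exact (min_le_left _ _).trans (h q χ (by omega) hχ)
    · obtain rfl : q = Q + 1 := by omega
      exact (min_le_right _ _).trans (h' χ hχ)

/-- The comparison character and the point `β`. -/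
lemma s5_choice {η : ℝ} (hη : 0 < η) (hη1 : η ≤ 1 / 10) (hζ : ∀ σ : ℝ, 1 - η < σ → σ < 1 →
    (riemannZeta σ).re < 0)
    (hne : ∃ q1 : ℕ, ∃ _ : NeZero q1, ∃ χ1 : DirichletCharacter ℂ q1, χ1 ^ 2 = 1 ∧ χ1 ≠ 1) :
    ∃ q1 : ℕ, ∃ _ : NeZero q1, ∃ χ1 : DirichletCharacter ℂ q1, χ1 ^ 2 = 1 ∧ χ1 ≠ 1 ∧
      ∃ β : ℝ, 1 - η < β ∧ β < 1 ∧ ∀ (q : ℕ) [NeZero q] (ψ : DirichletCharacter ℂ q),
        ψ ^ 2 = 1 → ψ ≠ 1 → prodChar χ1 ψ ≠ 1 → (F χ1 ψ β).re ≤ 0 := by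
  by_cases hA : ∃ q1 : ℕ, ∃ _ : NeZero q1, ∃ χ1 : DirichletCharacter ℂ q1, χ1 ^ 2 = 1 ∧ χ1 ≠ 1 ∧
      ∃ β : ℝ, 1 - η < β ∧ β < 1 ∧ χ1.LFunction β = 0
  · obtain ⟨q1, i1, χ1, h1, h2, β, hb1, hb2, hz⟩ := hA
    refine ⟨q1, i1, χ1, h1, h2, β, hb1, hb2, fun q _ ψ _ _ _ => ?_⟩
    unfold F
    rw [hz]
    simp
  · obtain ⟨q1, i1, χ1, h1, h2⟩ := hne
    refine ⟨q1, i1, χ1, h1, h2, 1 - η / 2, by linarith, by linarith, fun q _ ψ h3 h4 h5 => ?_⟩
    have hno : ∀ (n : ℕ) [NeZero n] (χ : DirichletCharacter ℂ n), χ ^ 2 = 1 → χ ≠ 1 →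
        0 < χ.LFunction ((1 - η / 2 : ℝ) : ℂ) := by
      intro n _ χ hχ hχ1
      refine LFunction_pos_of_no_zero hχ hχ1 (by linarith) ?_
      intro σ hs1 hs2 hz
      exact hA ⟨n, inferInstance, χ, hχ, hχ1, σ, by linarith, hs2, hz⟩
    have hp1 := hno q1 χ1 h1 h2
    have hp2 := hno q ψ h3 h4
    have hp3 := hno (q1 * q) (prodChar χ1 ψ) (prodChar_sq h1 h3) h5
    have hpp : 0 < χ1.LFunction ((1 - η / 2 : ℝ) : ℂ) * ψ.LFunction ((1 - η / 2 : ℝ) : ℂ) *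
        (prodChar χ1 ψ).LFunction ((1 - η / 2 : ℝ) : ℂ) := mul_pos (mul_pos hp1 hp2) hp3
    rw [Complex.pos_iff] at hpp
    have hF : F χ1 ψ ((1 - η / 2 : ℝ) : ℂ) = riemannZeta ((1 - η / 2 : ℝ) : ℂ) *
        (χ1.LFunction ((1 - η / 2 : ℝ) : ℂ) * ψ.LFunction ((1 - η / 2 : ℝ) : ℂ) *
        (prodChar χ1 ψ).LFunction ((1 - η / 2 : ℝ) : ℂ)) := by unfold F; ring
    rw [hF, mul_re, ← hpp.2, mul_zero, sub_zero]
    exact mul_nonpos_of_nonpos_of_nonneg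
      (hζ (1 - η / 2) (by linarith) (by linarith)).le hpp.1.le

theorem siegel : SiegelBound := by
  intro ε hε
  obtain ⟨c0, hc0, C0, hC0, hres⟩ := residue_lower
  obtain ⟨δ0, hδ0, hζ⟩ := zeta_neg
  set η : ℝ := min (1 / 10) (min δ0 (ε / (4 * C0))) with hη
  have hη0 : 0 < η := lt_min (by norm_num) (lt_min hδ0 (by positivity))
  have hη1 : η ≤ 1 / 10 := min_le_left _ _
  have hη2 : η ≤ δ0 := (min_le_right _ _).trans (min_le_left _ _)
  have hη3 : C0 * η ≤ ε / 4 := by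
    have h : η ≤ ε / (4 * C0) := (min_le_right _ _).trans (min_le_right _ _)
    calc C0 * η ≤ C0 * (ε / (4 * C0)) := mul_le_mul_of_nonneg_left h hC0.le
      _ = ε / 4 := by field_simp
  by_cases hne : ∃ q1 : ℕ, ∃ _ : NeZero q1, ∃ χ1 : DirichletCharacter ℂ q1, χ1 ^ 2 = 1 ∧ χ1 ≠ 1
  swap
  · refine ⟨1, one_pos, fun q _ χ _ h1 h2 => ?_⟩
    exact absurd ⟨q, inferInstance, χ, h2, h1⟩ hne
  obtain ⟨q1, i1, χ1, h1, h2, β, hb1, hb2, hF⟩ := s5_choice hη0 hη1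
    (fun σ ha hb => hζ σ (by linarith) hb) hne
  obtain ⟨cs, hcs, hsm⟩ := small_moduli q1
  set δ : ℝ := min (ε / 8) (1 / 2) with hδ
  have hδ1 : 0 < δ := lt_min (by positivity) (by norm_num)
  have hδ2 : δ ≤ ε / 8 := min_le_left _ _
  have hδ3 : δ ≤ 1 / 2 := min_le_right _ _
  have hL1 : 0 < ‖χ1.LFunction 1‖ :=
    norm_pos_iff.mpr (DirichletCharacter.LFunction_apply_one_ne_zero h2)
  have hq1 : (1 : ℝ) ≤ q1 := by exact_mod_cast Nat.one_le_iff_ne_zero.mpr (NeZero.ne q1)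
  have hb : 0 < 1 - β := by linarith
  set c' : ℝ := c0 * (1 - β) * δ / ‖χ1.LFunction 1‖ * (q1 : ℝ) ^ (-(ε / 2)) with hc'
  have hc'0 : 0 < c' := by
    have : 0 < (q1 : ℝ) ^ (-(ε / 2)) := Real.rpow_pos_of_pos (by linarith) _
    positivity
  refine ⟨min c' cs, lt_min hc'0 hcs, fun q _ ψ hp hψ1 hψ2 => ?_⟩
  have hq : (1 : ℝ) ≤ q := by exact_mod_cast Nat.one_le_iff_ne_zero.mpr (NeZero.ne q)
  have hqe : (q : ℝ) ^ (-ε) ≤ 1 := Real.rpow_le_one_of_one_le_of_nonpos hq (by linarith)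
  have hqe0 : 0 < (q : ℝ) ^ (-ε) := Real.rpow_pos_of_pos (by linarith) _
  rcases Nat.lt_or_ge q1 q with hlt | hge
  swap
  · calc min c' cs * (q : ℝ) ^ (-ε) ≤ min c' cs * 1 :=
          mul_le_mul_of_nonneg_left hqe (le_min hc'0.le hcs.le)
      _ ≤ cs := by rw [mul_one]; exact min_le_right _ _
      _ ≤ _ := hsm q ψ hge hψ1
  have h3 := prodChar_ne_one (χ := χ1) (ψ := ψ) h1 hp hlt
  have hr := hres q1 q χ1 ψ h1 hψ2 h2 hψ1 h3 β (by linarith) hb2 (hF q ψ hψ2 hψ1 h3)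
  set m : ℝ := (q1 : ℝ) * q with hm
  have hm1 : 1 ≤ m := by nlinarith
  have hm0 : 0 < m := by linarith
  have hprod : ‖(prodChar χ1 ψ).LFunction 1‖ ≤ m ^ (ε / 4) / δ := by
    have h4 := norm_LFunction_le h3 hδ1 (by linarith) (s := 1) (by simpa using hδ1.le)
    rw [norm_one, one_mul] at h4
    refine h4.trans ?_
    refine div_le_div_of_nonneg_right ?_ hδ1.le
    have h5 : (((q1 * q : ℕ)) : ℝ) = m := by rw [hm]; push_cast; ring
    rw [h5]
    exact Real.rpow_le_rpow_of_exponent_le hm1 (by linarith)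
  have hlow : m ^ (-(ε / 4)) ≤ m ^ (-(C0 * (1 - β))) := by
    refine Real.rpow_le_rpow_of_exponent_le hm1 ?_
    have : C0 * (1 - β) ≤ C0 * η := mul_le_mul_of_nonneg_left (by linarith) hC0.le
    linarith
  have hlam : ‖lam χ1 ψ‖ = ‖χ1.LFunction 1‖ * ‖ψ.LFunction 1‖ * ‖(prodChar χ1 ψ).LFunction 1‖ := by
    unfold lam; rw [norm_mul, norm_mul]
  rw [hlam] at hr
  have hmp : 0 < m ^ (ε / 4) := Real.rpow_pos_of_pos hm0 _
  have h6 : c0 * (1 - β) * m ^ (-(ε / 4)) ≤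
      ‖χ1.LFunction 1‖ * ‖ψ.LFunction 1‖ * (m ^ (ε / 4) / δ) := by
    calc c0 * (1 - β) * m ^ (-(ε / 4)) ≤ c0 * (1 - β) * m ^ (-(C0 * (1 - β))) :=
          mul_le_mul_of_nonneg_left hlow (by positivity)
      _ ≤ _ := hr
      _ ≤ _ := mul_le_mul_of_nonneg_left hprod (by positivity)
  have h7 : m ^ (-(ε / 4)) = (m ^ (ε / 4))⁻¹ := Real.rpow_neg hm0.le _
  have h8 : m ^ (ε / 4) * m ^ (ε / 4) = m ^ (ε / 2) := by
    rw [← Real.rpow_add hm0]; congr 1; ring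
  have h9 : m ^ (ε / 2) = (q1 : ℝ) ^ (ε / 2) * (q : ℝ) ^ (ε / 2) :=
    Real.mul_rpow (by linarith) (by linarith)
  have h10 : c0 * (1 - β) * δ / ‖χ1.LFunction 1‖ / m ^ (ε / 2) ≤ ‖ψ.LFunction 1‖ := by
    rw [h7] at h6
    rw [div_div, div_le_iff₀ (by positivity), ← h8]
    have h11 := mul_le_mul_of_nonneg_right h6 (mul_pos hmp hδ1).le
    have h12 : c0 * (1 - β) * (m ^ (ε / 4))⁻¹ * (m ^ (ε / 4) * δ) = c0 * (1 - β) * δ := by
      field_simp
    have h13 : ‖χ1.LFunction 1‖ * ‖ψ.LFunction 1‖ * (m ^ (ε / 4) / δ) * (m ^ (ε / 4) * δ) =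
        ‖ψ.LFunction 1‖ * (‖χ1.LFunction 1‖ * (m ^ (ε / 4) * m ^ (ε / 4))) := by
      field_simp
    rw [h12, h13] at h11
    exact h11
  refine le_trans ?_ h10
  have h14 : c0 * (1 - β) * δ / ‖χ1.LFunction 1‖ / m ^ (ε / 2) = c' * (q : ℝ) ^ (-(ε / 2)) := by
    rw [hc', h9, Real.rpow_neg (by linarith), Real.rpow_neg (by linarith)]
    field_simp
  rw [h14]
  calc min c' cs * (q : ℝ) ^ (-ε) ≤ c' * (q : ℝ) ^ (-ε) :=
        mul_le_mul_of_nonneg_right (min_le_left _ _) hqe0.le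
    _ ≤ c' * (q : ℝ) ^ (-(ε / 2)) :=
        mul_le_mul_of_nonneg_left (Real.rpow_le_rpow_of_exponent_le hq (by linarith)) hc'0.le

end Pool.Agent.H92.SW
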