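import Pool.Agent.H92.SW.LogDer
import Pool.Agent.H92.SW.Gauss
import Pool.Agent.H92.SW.Sieg5

/-!
# The theorem of Siegel and Walfisz with Gaussian weights in `log n`
-/

namespace Pool.Agent.H92.SW

open Complex Filter Topology MeasureTheory

/-- Convergence of the Dirichlet series of the von Mangoldt function with powers of the logarithm. -/
lemma summable_vonMangoldt_log (J : ℕ) {σ : ℝ} (hσ : 1 < σ) :
    Summable (fun n : ℕ => (ArithmeticFunction.vonMangoldt n * (Real.log n) ^ J) *
      (n : ℝ) ^ (-σ)) := by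
  set δ : ℝ := (σ - 1) / (2 * (J + 1)) with hδ
  have hδ0 : 0 < δ := by
    rw [hδ]
    have : 0 < σ - 1 := by linarith
    positivity
  have hsum : Summable (fun n : ℕ => (1 / δ) ^ (J + 1) * (n : ℝ) ^ (-((σ + 1) / 2))) :=
    (Real.summable_nat_rpow.mpr (by linarith)).mul_left _
  refine Summable.of_nonneg_of_le (fun n => ?_) (fun n => ?_) hsum
  · have h1 := ArithmeticFunction.vonMangoldt_nonneg (n := n)
    have h2 : 0 ≤ Real.log n := Real.log_natCast_nonneg n
    positivity
  · rcases Nat.eq_zero_or_pos n with h0 | h0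
    · subst h0
      simp
      positivity
    · have hn : (0 : ℝ) < n := Nat.cast_pos.mpr h0
      have h2 : 0 ≤ Real.log n := Real.log_natCast_nonneg n
      have h3 : Real.log n ≤ (n : ℝ) ^ δ / δ := Real.log_le_rpow_div hn.le hδ0
      have h4 : ArithmeticFunction.vonMangoldt n ≤ Real.log n :=
        ArithmeticFunction.vonMangoldt_le_log
      calc (ArithmeticFunction.vonMangoldt n * (Real.log n) ^ J) * (n : ℝ) ^ (-σ)
          ≤ (Real.log n * (Real.log n) ^ J) * (n : ℝ) ^ (-σ) := by gcongr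
        _ = (Real.log n) ^ (J + 1) * (n : ℝ) ^ (-σ) := by ring
        _ ≤ ((n : ℝ) ^ δ / δ) ^ (J + 1) * (n : ℝ) ^ (-σ) := by gcongr
        _ = (1 / δ) ^ (J + 1) * (((n : ℝ) ^ δ) ^ (J + 1) * (n : ℝ) ^ (-σ)) := by
            rw [div_pow, one_div, inv_pow]
            ring
        _ = (1 / δ) ^ (J + 1) * (n : ℝ) ^ (-((σ + 1) / 2)) := by
            rw [← Real.rpow_natCast ((n : ℝ) ^ δ) (J + 1), ← Real.rpow_mul hn.le,
              ← Real.rpow_add hn]
            congr 2
            rw [hδ]
            push_cast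
            field_simp
            ring

theorem summable_wt (J : ℕ) (x : ℝ) (hx : 1 ≤ x) :
    Summable (fun n : ℕ => ArithmeticFunction.vonMangoldt n * (Real.log n) ^ J *
      Real.exp (-(Real.log (n / x)) ^ 2 / 2)) := by
  have h := summable_gauss
    (f := fun n : ℕ => ((ArithmeticFunction.vonMangoldt n * (Real.log n) ^ J : ℝ) : ℂ))
    (by simp) (σ := 2) ?_ (x := x) (by linarith)
  · refine h.congr fun n => ?_
    rw [norm_real, Real.norm_of_nonneg]
    have h1 := ArithmeticFunction.vonMangoldt_nonneg (n := n)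
    have h2 : 0 ≤ Real.log n := Real.log_natCast_nonneg n
    positivity
  · refine (summable_vonMangoldt_log J (σ := 2) (by norm_num)).congr fun n => ?_
    rw [norm_real, Real.norm_of_nonneg]
    have h1 := ArithmeticFunction.vonMangoldt_nonneg (n := n)
    have h2 : 0 ≤ Real.log n := Real.log_natCast_nonneg n
    positivity

theorem sw (J : ℕ) (ε : ℝ) (hε : 0 < ε) : ∃ C : ℝ, 0 < C ∧ ∀ (q : ℕ) [NeZero q]
    (χ : DirichletCharacter ℂ q), χ.IsPrimitive → 1 < q → ∀ x : ℝ, 2 ≤ x →
    ‖∑' n : ℕ, ((ArithmeticFunction.vonMangoldt n * (Real.log n) ^ J *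
      Real.exp (-(Real.log (n / x)) ^ 2 / 2) : ℝ) : ℂ) * χ n‖ ≤ C * x * (q : ℝ) ^ ε := by
  obtain ⟨C1, hC1, A, _, hlog⟩ := logder_bound siegel J hε
  obtain ⟨C2, hC2, hg⟩ := gauss_bound A
  refine ⟨C2 * C1, by positivity, ?_⟩
  intro q _ χ hprim hq x hx
  have hχ : χ ≠ 1 := by
    intro h
    have h1 : χ.conductor = q := hprim
    rw [h, DirichletCharacter.conductor_one] at h1
    omega
  have h := hg (fun n : ℕ => ((ArithmeticFunction.vonMangoldt n * (Real.log n) ^ J : ℝ) : ℂ) *
    χ n) (C1 * (q : ℝ) ^ ε) (by simp) ?_ ?_ x (by linarith)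
  · calc ‖∑' n : ℕ, ((ArithmeticFunction.vonMangoldt n * (Real.log n) ^ J *
        Real.exp (-(Real.log (n / x)) ^ 2 / 2) : ℝ) : ℂ) * χ n‖
        = ‖∑' n : ℕ, ((ArithmeticFunction.vonMangoldt n * (Real.log n) ^ J : ℝ) : ℂ) * χ n *
          (Real.exp (-(Real.log (n / x)) ^ 2 / 2) : ℂ)‖ := by
          congr 1
          refine tsum_congr fun n => ?_
          push_cast
          ring
      _ ≤ C2 * (C1 * (q : ℝ) ^ ε) * x := h
      _ = C2 * C1 * x * (q : ℝ) ^ ε := by ring
  · intro σ hσ
    refine Summable.of_nonneg_of_le (fun n => by positivity) (fun n => ?_)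
      (summable_vonMangoldt_log J hσ)
    refine mul_le_mul_of_nonneg_right ?_ (by positivity)
    have h1 := ArithmeticFunction.vonMangoldt_nonneg (n := n)
    have h2 : 0 ≤ Real.log n := Real.log_natCast_nonneg n
    rw [norm_mul, norm_real, Real.norm_of_nonneg (by positivity)]
    exact mul_le_of_le_one_right (by positivity) (χ.norm_le_one _)
  · intro s hs hs2
    exact hlog q χ hprim hχ s hs hs2

end Pool.Agent.H92.SW
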