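import Pool.Agent.H92.SW.Triv

/-!
# Lower bounds from the 3-4-1 inequality

`lower341`: `DirichletCharacter.norm_LSeries_product_ge_one` (Mathlib) and
`norm (L(chi_0, 1+x)) <= (1+x)/x <= 2/x` (`norm_LSeries_le_re`).
`lower_trivial`: write `s = 1 + x + I*y`, `x = Re s - 1`, `0 < x <= 1`; use `lower341` with `B = 2/x`
(`norm_LSeries_le_re` again), which gives `x^4 <= 16 norm(L)^4`.
-/

namespace Pool.Agent.H92.SW

open Complex Filter Topology MeasureTheory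

lemma lower341 {q : ℕ} [NeZero q] (χ : DirichletCharacter ℂ q) {x y B : ℝ} (hx : 0 < x)
    (hx1 : x ≤ 1)
    (hB : ‖LSeries (fun n : ℕ => (χ ^ 2 : DirichletCharacter ℂ q) n) (1 + x + 2 * I * y)‖ ≤ B) :
    x ^ 3 ≤ 8 * B * ‖χ.LFunction (1 + x + I * y)‖ ^ 4 := by
  have h1 : 1 < (1 + x + I * y : ℂ).re := by simp [hx]
  have h0 : 1 < (1 + x : ℂ).re := by simp [hx]
  have hre : (1 + x : ℂ).re = 1 + x := by simp
  have key := DirichletCharacter.norm_LSeries_product_ge_one χ hx y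
  have htriv : ‖LSeries (fun n : ℕ => (1 : DirichletCharacter ℂ q) n) (1 + x)‖ ≤ 2 / x := by
    refine (norm_LSeries_le_re (fun n => DirichletCharacter.norm_le_one _ _) h0).trans ?_
    rw [hre, add_sub_cancel_left]
    gcongr
    linarith
  rw [χ.LFunction_eq_LSeries h1]
  rw [norm_mul, norm_mul, norm_pow, norm_pow] at key
  have hB0 : 0 ≤ B := (norm_nonneg _).trans hB
  set L0 := ‖LSeries (fun n : ℕ => (1 : DirichletCharacter ℂ q) n) (1 + x)‖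
  set L1 := ‖LSeries (fun n : ℕ => χ n) (1 + x + I * y)‖
  set L2 := ‖LSeries (fun n : ℕ => (χ ^ 2 : DirichletCharacter ℂ q) n) (1 + x + 2 * I * y)‖
  have hL0 : 0 ≤ L0 := norm_nonneg _
  have hL1 : 0 ≤ L1 := norm_nonneg _
  have hL2 : 0 ≤ L2 := norm_nonneg _
  have h3 : L0 ^ 3 ≤ (2 / x) ^ 3 := by gcongr
  have h4 : 1 ≤ (2 / x) ^ 3 * L1 ^ 4 * B := by
    calc (1 : ℝ) ≤ L0 ^ 3 * L1 ^ 4 * L2 := key
      _ ≤ (2 / x) ^ 3 * L1 ^ 4 * B := by gcongr
  calc x ^ 3 = x ^ 3 * 1 := by ring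
    _ ≤ x ^ 3 * ((2 / x) ^ 3 * L1 ^ 4 * B) := by gcongr
    _ = 8 * B * L1 ^ 4 := by
      field_simp
      ring

lemma lower_trivial {q : ℕ} [NeZero q] (χ : DirichletCharacter ℂ q) {s : ℂ} (hs : 1 < s.re)
    (hs2 : s.re ≤ 2) : (s.re - 1) / 2 ≤ ‖χ.LFunction s‖ := by
  have hx : 0 < s.re - 1 := by linarith
  have hx1 : s.re - 1 ≤ 1 := by linarith
  have hs2' : 1 < (1 + ((s.re - 1 : ℝ) : ℂ) + 2 * I * (s.im : ℂ)).re := by
    simp [hs]
  have hre2 : (1 + ((s.re - 1 : ℝ) : ℂ) + 2 * I * (s.im : ℂ)).re = s.re := by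
    simp
  have hB : ‖LSeries (fun n : ℕ => (χ ^ 2 : DirichletCharacter ℂ q) n)
      (1 + ((s.re - 1 : ℝ) : ℂ) + 2 * I * (s.im : ℂ))‖ ≤ 2 / (s.re - 1) := by
    refine (norm_LSeries_le_re (fun n => DirichletCharacter.norm_le_one _ _) hs2').trans ?_
    rw [hre2]
    gcongr
  have h := lower341 χ hx hx1 hB
  have hseq : (1 + ((s.re - 1 : ℝ) : ℂ) + I * (s.im : ℂ)) = s := by
    apply Complex.ext <;> simp
  rw [hseq] at h
  set x := s.re - 1
  set L := ‖χ.LFunction s‖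
  have hL : 0 ≤ L := norm_nonneg _
  have h4 : (x / 2) ^ 4 ≤ L ^ 4 := by
    have : x ^ 3 * x ≤ 8 * (2 / x) * L ^ 4 * x := by gcongr
    have h5 : 8 * (2 / x) * L ^ 4 * x = 16 * L ^ 4 := by
      field_simp
      ring
    rw [h5] at this
    nlinarith
  exact le_of_pow_le_pow_left₀ (by norm_num) hL h4

end Pool.Agent.H92.SW
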