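import Pool.Agent.H92.SW.LowerB

/-!
# The series of `Λ(n) χ(n) (log n)^j n^(-s)` for `1 < Re s ≤ 2`

Let `g(w) = -L'(w)/L(w)`. Near `s` (`Re s > 1`) `g = LSeries (chi * Lambda)`
(`DirichletCharacter.LSeries_twist_vonMangoldt_eq`, `deriv_LFunction_eq_deriv_LSeries`), so by
`LSeries_iteratedDeriv` the series in question equals `(-1)^j * iteratedDeriv j g s`.
Let `l = c q^(-eps') T^(-A')` be the lower bound of `lower_bound` at `s` (`T = |Im s| + 2`,
`eps' = eps/(2(j+1))` etc.; we may take `l <= 1`), `d` small, and `M = 2 (T+2) q^(2d)/d^2`. For `norm (w-s) <= d` we have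
`norm (L w) <= (T+2) q^(2d)/d` (`norm_LFunction_le`; `Re w >= 1 - d`), so `norm (L' w) <= M` for
`norm (w - s) <= d/2` (Cauchy). With `r = l/(2M)` (`<= d/2`): for `norm (w-s) <= r`,
`norm (L w) >= l - r M >= l/2`, so `g` is differentiable on a neighbourhood of the closed ball and
`norm (g w) <= 2M/l` there. Cauchy (`Complex.norm_iteratedDeriv_le_of_forall_mem_sphere_norm_le`):
`norm (iteratedDeriv j g s) <= j! (2M/l) r^(-j) = j! (2M/l)^(j+1)`.
-/

namespace Pool.Agent.H92.SW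

open Complex Filter Topology MeasureTheory

/-- the series of the statement as an iterated derivative -/
theorem ld_series_eq {q : ℕ} [NeZero q] (χ : DirichletCharacter ℂ q) (j : ℕ) {s : ℂ}
    (hs : 1 < s.re) :
    ‖∑' n : ℕ, ((ArithmeticFunction.vonMangoldt n * (Real.log n) ^ j : ℝ) : ℂ) * χ n *
          (n : ℂ) ^ (-s)‖ =
      ‖iteratedDeriv j (fun w => -deriv χ.LFunction w / χ.LFunction w) s‖ := by
  have hev : (fun w => -deriv χ.LFunction w / χ.LFunction w) =ᶠ[𝓝 s]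
      LSeries ((fun n : ℕ => χ n) * (fun n : ℕ => (ArithmeticFunction.vonMangoldt n : ℂ))) := by
    have h : {z : ℂ | 1 < z.re} ∈ 𝓝 s :=
      (isOpen_lt continuous_const continuous_re).mem_nhds hs
    filter_upwards [h] with z hz
    have hz : 1 < z.re := hz
    rw [DirichletCharacter.LSeries_twist_vonMangoldt_eq χ hz,
      DirichletCharacter.deriv_LFunction_eq_deriv_LSeries χ hz,
      DirichletCharacter.LFunction_eq_LSeries χ hz]
  rw [hev.iteratedDeriv_eq]
  have hab : LSeries.abscissaOfAbsConv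
      ((fun n : ℕ => χ n) * (fun n : ℕ => (ArithmeticFunction.vonMangoldt n : ℂ))) < s.re := by
    have hs1 : 1 < ((((1 + s.re) / 2 : ℝ)) : ℂ).re := by
      rw [ofReal_re]
      linarith
    have h1 := (DirichletCharacter.LSeriesSummable_twist_vonMangoldt χ hs1).abscissaOfAbsConv_le
    refine lt_of_le_of_lt h1 ?_
    rw [ofReal_re]
    exact_mod_cast (by linarith : (1 + s.re) / 2 < s.re)
  rw [LSeries_iteratedDeriv j hab, norm_mul, norm_pow, norm_neg, norm_one, one_pow, one_mul]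
  have hlog : ∀ (m : ℕ) (f : ℕ → ℂ) (n : ℕ),
      (LSeries.logMul^[m] f) n = (Complex.log n) ^ m * f n := by
    intro m f n
    induction m with
    | zero => simp
    | succ m ih =>
      rw [Function.iterate_succ_apply']
      show Complex.log n * (LSeries.logMul^[m] f) n = _
      rw [ih, pow_succ]
      ring
  congr 1
  unfold LSeries
  refine tsum_congr fun n => ?_
  rcases eq_or_ne n 0 with h0 | h0
  · subst h0
    simp
  · rw [LSeries.term_of_ne_zero h0, hlog, cpow_neg, Pi.mul_apply, ← Complex.natCast_log]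
    push_cast
    field_simp

theorem ld_norm_le {s w : ℂ} {d : ℝ} (hs : 1 < s.re) (hs2 : s.re ≤ 2) (hd2 : d ≤ 1 / 2)
    (hw : ‖w - s‖ ≤ d) : ‖w‖ ≤ 2 * (|s.im| + 2) := by
  have h1 : ‖w‖ ≤ ‖s‖ + ‖w - s‖ := by
    calc ‖w‖ = ‖s + (w - s)‖ := by ring_nf
      _ ≤ ‖s‖ + ‖w - s‖ := norm_add_le _ _
  have h2 : ‖s‖ ≤ |s.re| + |s.im| := Complex.norm_le_abs_re_add_abs_im s
  have h3 : |s.re| = s.re := abs_of_pos (by linarith)
  have h4 := abs_nonneg s.im
  rw [h3] at h2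
  linarith

/-- the derivative of `L` near `s` -/
theorem ld_deriv_le {q : ℕ} [NeZero q] {χ : DirichletCharacter ℂ q} (hχ : χ ≠ 1)
    {d : ℝ} (h0 : 0 < d) (h1 : 2 * d ≤ 1) {s : ℂ} (hs : 1 < s.re) (hs2 : s.re ≤ 2)
    {w : ℂ} (hw : ‖w - s‖ ≤ d / 2) :
    ‖deriv χ.LFunction w‖ ≤ 4 * (|s.im| + 2) * (q : ℝ) ^ (2 * d) / d ^ 2 := by
  have hb : ∀ z ∈ Metric.sphere w (d / 2), ‖χ.LFunction z‖ ≤
      2 * (|s.im| + 2) * ((q : ℝ) ^ (2 * d) / d) := by
    intro z hz
    rw [mem_sphere_iff_norm] at hz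
    have hzs : ‖z - s‖ ≤ d := by
      calc ‖z - s‖ = ‖(z - w) + (w - s)‖ := by ring_nf
        _ ≤ ‖z - w‖ + ‖w - s‖ := norm_add_le _ _
        _ ≤ d := by linarith
    have hre : 1 - d ≤ z.re := by
      have h2 : |(z - s).re| ≤ ‖z - s‖ := Complex.abs_re_le_norm _
      have h3 := (abs_le.mp (h2.trans hzs)).1
      rw [sub_re] at h3
      linarith
    refine (norm_LFunction_le hχ h0 h1 hre).trans ?_
    exact mul_le_mul_of_nonneg_right (ld_norm_le hs hs2 (by linarith) hzs) (by positivity)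
  have h2 := Complex.norm_deriv_le_of_forall_mem_sphere_norm_le (half_pos h0)
    (DirichletCharacter.differentiable_LFunction hχ).diffContOnCl hb
  refine h2.trans (le_of_eq ?_)
  field_simp
  ring

/-- the Cauchy estimate for the logarithmic derivative -/
theorem ld_cauchy {q : ℕ} [NeZero q] {χ : DirichletCharacter ℂ q} (hχ : χ ≠ 1)
    {d : ℝ} (h0 : 0 < d) (h1 : 2 * d ≤ 1) {s : ℂ} (hs : 1 < s.re) (hs2 : s.re ≤ 2) (j : ℕ)
    {l : ℝ} (hl : 0 < l) (hl1 : l ≤ 1) (hL : l ≤ ‖χ.LFunction s‖) :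
    ‖iteratedDeriv j (fun w => -deriv χ.LFunction w / χ.LFunction w) s‖ ≤
      (j.factorial : ℝ) *
        (2 * (4 * (|s.im| + 2) * (q : ℝ) ^ (2 * d) / d ^ 2) / l) ^ (j + 1) := by
  set M := 4 * (|s.im| + 2) * (q : ℝ) ^ (2 * d) / d ^ 2 with hM
  have hq1 : (1 : ℝ) ≤ q := by exact_mod_cast NeZero.one_le
  have hqd : (1 : ℝ) ≤ (q : ℝ) ^ (2 * d) := Real.one_le_rpow hq1 (by linarith)
  have him := abs_nonneg s.im
  have hMd : 1 / d ≤ M := by
    rw [hM, div_le_div_iff₀ h0 (by positivity)]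
    have h3 : 1 ≤ 4 * (|s.im| + 2) * (q : ℝ) ^ (2 * d) := by
      nlinarith
    nlinarith [mul_pos h0 h0]
  have hMpos : 0 < M := lt_of_lt_of_le (by positivity) hMd
  have hr : 0 < l / (2 * M) := by positivity
  have hrd : l / (2 * M) ≤ d / 2 := by
    rw [div_le_div_iff₀ (by positivity) (by norm_num)]
    have h3 : 1 ≤ M * d := by
      rw [div_le_iff₀ h0] at hMd
      exact hMd
    nlinarith
  have hlow : ∀ w ∈ Metric.closedBall s (l / (2 * M)), l / 2 ≤ ‖χ.LFunction w‖ := by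
    intro w hw
    have hconv : Convex ℝ (Metric.closedBall s (l / (2 * M))) := convex_closedBall _ _
    have h3 : ‖χ.LFunction w - χ.LFunction s‖ ≤ M * ‖w - s‖ := by
      refine hconv.norm_image_sub_le_of_norm_deriv_le (𝕜 := ℂ) ?_ ?_
        (Metric.mem_closedBall_self hr.le) hw
      · intro z _
        exact DirichletCharacter.differentiable_LFunction hχ z
      · intro z hz
        rw [mem_closedBall_iff_norm] at hz
        exact ld_deriv_le hχ h0 h1 hs hs2 (hz.trans hrd)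
    have h4 : M * ‖w - s‖ ≤ l / 2 := by
      rw [mem_closedBall_iff_norm] at hw
      calc M * ‖w - s‖ ≤ M * (l / (2 * M)) := by gcongr
        _ = l / 2 := by field_simp
    have h5 : ‖χ.LFunction s‖ ≤ ‖χ.LFunction w‖ + ‖χ.LFunction w - χ.LFunction s‖ := by
      calc ‖χ.LFunction s‖ = ‖χ.LFunction w - (χ.LFunction w - χ.LFunction s)‖ := by ring_nf
        _ ≤ _ := norm_sub_le _ _
    linarith
  have hne : ∀ w ∈ Metric.closedBall s (l / (2 * M)), χ.LFunction w ≠ 0 := by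
    intro w hw h
    have := hlow w hw
    rw [h, norm_zero] at this
    linarith
  have hdiff : DiffContOnCl ℂ (fun w => -deriv χ.LFunction w / χ.LFunction w)
      (Metric.ball s (l / (2 * M))) := by
    refine DifferentiableOn.diffContOnCl ?_
    intro w hw
    have hw' := Metric.closure_ball_subset_closedBall hw
    have hd1 : Differentiable ℂ (deriv χ.LFunction) :=
      (DirichletCharacter.differentiable_LFunction hχ).contDiff.differentiable_deriv_two
    refine DifferentiableAt.differentiableWithinAt ?_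
    exact (hd1 w).neg.div (DirichletCharacter.differentiable_LFunction hχ w) (hne w hw')
  have hC : ∀ w ∈ Metric.sphere s (l / (2 * M)),
      ‖(fun w => -deriv χ.LFunction w / χ.LFunction w) w‖ ≤ 2 * M / l := by
    intro w hw
    have hw' := Metric.sphere_subset_closedBall hw
    show ‖-deriv χ.LFunction w / χ.LFunction w‖ ≤ _
    rw [norm_div, norm_neg]
    have h3 := ld_deriv_le hχ h0 h1 hs hs2 (w := w)
      (by rw [mem_closedBall_iff_norm] at hw'; exact hw'.trans hrd)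
    have h4 := hlow w hw'
    rw [div_le_div_iff₀ (lt_of_lt_of_le (by positivity) h4) hl]
    nlinarith [hMpos]
  have h3 := Complex.norm_iteratedDeriv_le_of_forall_mem_sphere_norm_le j hr hdiff hC
  refine h3.trans (le_of_eq ?_)
  have e1 : l / (2 * M) = (2 * M / l)⁻¹ := by rw [inv_div]
  rw [e1, inv_pow, div_inv_eq_mul, pow_succ]
  ring

theorem logder_bound (hS : SiegelBound) (j : ℕ) {ε : ℝ} (hε : 0 < ε) :
    ∃ C : ℝ, 0 < C ∧ ∃ A : ℝ, 0 ≤ A ∧ ∀ (q : ℕ) [NeZero q] (χ : DirichletCharacter ℂ q),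
      χ.IsPrimitive → χ ≠ 1 → ∀ s : ℂ, 1 < s.re → s.re ≤ 2 →
        ‖∑' n : ℕ, ((ArithmeticFunction.vonMangoldt n * (Real.log n) ^ j : ℝ) : ℂ) * χ n *
          (n : ℂ) ^ (-s)‖ ≤ C * (q : ℝ) ^ ε * (|s.im| + 2) ^ A := by
  have hj : (0 : ℝ) < j + 1 := by positivity
  have hε1 : 0 < ε / (2 * (j + 1)) := by positivity
  obtain ⟨c, hc, A, hA, hlow⟩ := lower_bound hS hε1
  obtain ⟨d, hd⟩ : ∃ d : ℝ, d = min (ε / (4 * (j + 1))) (1 / 2) := ⟨_, rfl⟩
  have hd0 : 0 < d := by rw [hd]; exact lt_min (by positivity) (by norm_num)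
  have hd1 : 2 * d ≤ 1 := by
    have : d ≤ 1 / 2 := by rw [hd]; exact min_le_right _ _
    linarith
  have hd2 : d ≤ ε / (4 * (j + 1)) := by rw [hd]; exact min_le_left _ _
  obtain ⟨c', hc'⟩ : ∃ c' : ℝ, c' = min c 1 := ⟨_, rfl⟩
  have hc0 : 0 < c' := by rw [hc']; exact lt_min hc one_pos
  have hc1 : c' ≤ 1 := by rw [hc']; exact min_le_right _ _
  have hcc : c' ≤ c := by rw [hc']; exact min_le_left _ _
  refine ⟨j.factorial * (8 / (d ^ 2 * c')) ^ (j + 1), by positivity, (1 + A) * (j + 1),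
    by positivity, ?_⟩
  intro q _ χ hprim hχ s hs hs2
  have hq1 : (1 : ℝ) ≤ q := by exact_mod_cast NeZero.one_le
  have hq0 : (0 : ℝ) < q := by linarith
  have him := abs_nonneg s.im
  have hT0 : 0 < |s.im| + 2 := by linarith
  have hT1 : 1 ≤ |s.im| + 2 := by linarith
  rw [ld_series_eq χ j hs]
  have hl : 0 < c' * (q : ℝ) ^ (-(ε / (2 * (j + 1)))) * (|s.im| + 2) ^ (-A) := by positivity
  have hqle : (q : ℝ) ^ (-(ε / (2 * ((j : ℝ) + 1)))) ≤ 1 :=
    Real.rpow_le_one_of_one_le_of_nonpos hq1 (by linarith)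
  have hTle : (|s.im| + 2) ^ (-A) ≤ 1 := Real.rpow_le_one_of_one_le_of_nonpos hT1 (by linarith)
  have hl1 : c' * (q : ℝ) ^ (-(ε / (2 * (j + 1)))) * (|s.im| + 2) ^ (-A) ≤ 1 := by
    calc c' * (q : ℝ) ^ (-(ε / (2 * (j + 1)))) * (|s.im| + 2) ^ (-A) ≤ 1 * 1 * 1 := by gcongr
      _ = 1 := by norm_num
  have hL : c' * (q : ℝ) ^ (-(ε / (2 * (j + 1)))) * (|s.im| + 2) ^ (-A) ≤ ‖χ.LFunction s‖ := by
    refine le_trans ?_ (hlow q χ hprim hχ s hs hs2)
    gcongr
  refine (ld_cauchy hχ hd0 hd1 hs hs2 j hl hl1 hL).trans ?_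
  generalize |s.im| + 2 = T at *
  have e1 : 2 * (4 * T * (q : ℝ) ^ (2 * d) / d ^ 2) /
      (c' * (q : ℝ) ^ (-(ε / (2 * (j + 1)))) * T ^ (-A)) =
      (8 / (d ^ 2 * c')) * ((q : ℝ) ^ (2 * d + ε / (2 * (j + 1))) * T ^ (1 + A)) := by
    rw [Real.rpow_neg hq0.le, Real.rpow_neg hT0.le, Real.rpow_add hq0, Real.rpow_add hT0,
      Real.rpow_one]
    have hx : (q : ℝ) ^ (ε / (2 * ((j : ℝ) + 1))) ≠ 0 := (Real.rpow_pos_of_pos hq0 _).ne'
    have hy : T ^ A ≠ 0 := (Real.rpow_pos_of_pos hT0 _).ne'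
    field_simp
    ring
  rw [e1, mul_pow, ← mul_assoc, mul_pow]
  have e2 : ((q : ℝ) ^ (2 * d + ε / (2 * (j + 1)))) ^ (j + 1) ≤ (q : ℝ) ^ ε := by
    rw [← Real.rpow_natCast, ← Real.rpow_mul hq0.le]
    refine Real.rpow_le_rpow_of_exponent_le hq1 ?_
    push_cast
    have h3 : 2 * d * (j + 1) ≤ ε / 2 := by
      calc 2 * d * (j + 1) ≤ 2 * (ε / (4 * (j + 1))) * (j + 1) := by gcongr
        _ = ε / 2 := by field_simp; norm_num
    have h4 : ε / (2 * (j + 1)) * (j + 1) = ε / 2 := by field_simp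
    rw [add_mul]
    linarith
  have e3 : (T ^ (1 + A)) ^ (j + 1) = T ^ ((1 + A) * (j + 1)) := by
    rw [← Real.rpow_natCast, ← Real.rpow_mul hT0.le]
    push_cast
    ring_nf
  rw [e3, ← mul_assoc]
  gcongr

end Pool.Agent.H92.SW
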