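import Mathlib

/-!
# Partial sums of Dirichlet characters and bounds for L-functions near the line Re s = 1
-/

namespace Pool.Agent.H92.SW

open Complex Filter Topology MeasureTheory

/-- Partial sum of a sequence up to a real number. -/
noncomputable def S (f : ℕ → ℂ) (t : ℝ) : ℂ := ∑ k ∈ Finset.Icc 1 ⌊t⌋₊, f k

lemma norm_S_le {f : ℕ → ℂ} (hf : ∀ n, ‖f n‖ ≤ 1) {t : ℝ} (ht : 0 ≤ t) : ‖S f t‖ ≤ t := by
  unfold S
  refine (norm_sum_le _ _).trans ((Finset.sum_le_sum fun k _ => hf k).trans ?_)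
  simpa using Nat.floor_le ht

/-- The sum of a function on `ZMod q` over `q` consecutive natural numbers. -/
lemma sum_range_period {q : ℕ} [NeZero q] (g : ZMod q → ℂ) (a : ℕ) :
    ∑ k ∈ Finset.range q, g ((a + k : ℕ) : ZMod q) = ∑ x : ZMod q, g x := by
  refine Finset.sum_bij (fun k _ => ((a + k : ℕ) : ZMod q)) (fun _ _ => Finset.mem_univ _) ?_ ?_
    (fun _ _ => rfl)
  · intro i hi j hj hij
    rw [ZMod.natCast_eq_natCast_iff] at hij
    have h2 : i ≡ j [MOD q] := Nat.ModEq.add_left_cancel' a hij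
    rw [Finset.mem_range] at hi hj
    exact Nat.ModEq.eq_of_lt_of_lt h2 hi hj
  · intro x _
    refine ⟨(x - (a : ZMod q)).val, ?_, ?_⟩
    · rw [Finset.mem_range]; exact ZMod.val_lt _
    · push_cast
      rw [ZMod.natCast_zmod_val]
      ring

/-- Partial sums of a mean zero periodic function bounded by one are bounded by the period. -/
lemma norm_sum_Icc_le_period {q : ℕ} [NeZero q] (g : ZMod q → ℂ) (hg : ∑ x : ZMod q, g x = 0)
    (hb : ∀ x, ‖g x‖ ≤ 1) (n : ℕ) : ‖∑ k ∈ Finset.Icc 1 n, g (k : ZMod q)‖ ≤ q := by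
  induction n using Nat.strong_induction_on with
  | _ n ih =>
    rcases lt_or_ge n q with h | h
    · refine (norm_sum_le _ _).trans ((Finset.sum_le_sum fun k _ => hb _).trans ?_)
      simp only [Finset.sum_const, Nat.card_Icc, Nat.add_sub_cancel, nsmul_eq_mul, mul_one]
      exact_mod_cast h.le
    · have hq : 0 < q := Nat.pos_of_ne_zero (NeZero.ne q)
      have h1 : Finset.Icc 1 n = Finset.Icc 1 (n - q) ∪ Finset.Ico (n - q + 1) (n + 1) := by
        ext k
        simp only [Finset.mem_Icc, Finset.mem_union, Finset.mem_Ico]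
        omega
      have hd : Disjoint (Finset.Icc 1 (n - q)) (Finset.Ico (n - q + 1) (n + 1)) := by
        rw [Finset.disjoint_left]
        intro k hk hk2
        simp only [Finset.mem_Icc, Finset.mem_Ico] at hk hk2
        omega
      rw [h1, Finset.sum_union hd, Finset.sum_Ico_eq_sum_range]
      have h3 : n + 1 - (n - q + 1) = q := by omega
      rw [h3, sum_range_period g (n - q + 1), hg, add_zero]
      exact ih (n - q) (by omega)

/-- Partial sums of a non-principal character. -/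
lemma norm_S_le_level {q : ℕ} [NeZero q] {χ : DirichletCharacter ℂ q} (hχ : χ ≠ 1) (t : ℝ) :
    ‖S (χ ·) t‖ ≤ q :=
  norm_sum_Icc_le_period (fun x => χ x) (χ.sum_eq_zero_of_ne_one hχ) (fun x => χ.norm_le_one x) _

/-- Interpolated bound for the partial sums. -/
lemma norm_S_le_rpow {q : ℕ} [NeZero q] {χ : DirichletCharacter ℂ q} (hχ : χ ≠ 1) {t : ℝ}
    (ht : 0 ≤ t) {δ : ℝ} (h0 : 0 ≤ δ) (h1 : δ ≤ 1) :
    ‖S (χ ·) t‖ ≤ (q : ℝ) ^ δ * t ^ (1 - δ) := by
  have ha := norm_S_le_level hχ t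
  have hb := norm_S_le (f := fun n : ℕ => χ n) (fun n => χ.norm_le_one n) ht
  have hn := norm_nonneg (S (χ ·) t)
  rcases hn.eq_or_lt with h | h
  · rw [← h]; positivity
  · calc ‖S (χ ·) t‖ = ‖S (χ ·) t‖ ^ δ * ‖S (χ ·) t‖ ^ (1 - δ) := by
          rw [← Real.rpow_add h]; simp
      _ ≤ (q : ℝ) ^ δ * t ^ (1 - δ) := by
          gcongr

end Pool.Agent.H92.SW
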