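import Pool.Agent.H92.SW.Lower

/-!
# Lower bound for `L(s, χ)` on `1 < Re s ≤ 2` from the bound of Siegel

Write `s = 1 + x + i y`, `0 < x <= 1`, `T = |y| + 2`, and put `d` = a small multiple of `eps`
(`d = min (eps/100) (1/4)` is plenty).

Upper bounds: for `w` with `Re w >= 1`: `norm (L w) <= norm w * q^(2d)/d` (`norm_LFunction_le` with
`delta = d`), and by the Cauchy estimate on the disc of radius `d` (Mathlib:
`Complex.norm_deriv_le_of_forall_mem_sphere_norm_le` or the iterated version with `n = 1`), since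
`norm_LFunction_le` holds for `Re w >= 1 - d`: `norm (L' w) <= (norm w + 1) q^(2d)/d^2 <= D` where
`D = 4 T q^(2d)/d^2` for all `w` with `1 <= Re w <= 2`, `|Im w| <= T`. Hence (`Convex.norm_image_sub_le_of_norm_deriv_le` on the convex set)
`norm (L w - L w') <= D * norm (w - w')` for such `w, w'` with the same bound for `|Im|`.

Case 1, `chi^2 <> 1`. For `0 < x <= 1`: `B = norm (L(chi^2, 1+x+2iy)) <= (2 + 2 T) q^(2d)/d`, so by `lower341`
`norm (L(1+x+iy))^4 >= x^3/(8B)`. Let `x1 = 1/(2^12 * B * D^4)` (`<= 1`; `B, D >= 1`). For `x >= x1` we get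
`norm(L)^4 >= x1^3/(8B) = x1^4 * 2^12 B D^4/(8 B) >= (2 x1 D)^4`, so `norm (L) >= 2 x1 D`; for `x < x1`,
`norm (L(1+x+iy)) >= norm (L(1+x1+iy)) - D x1 >= x1 D >= x1`. All is at least `c T^(-A) q^(-10 d)`.

Case 2, `chi^2 = 1`. Let `c0 q^(-d) <= norm (L(1,chi))` (Siegel with exponent `d`) and
`eta = c1 q^(-4d)`, `c1` a small constant (depending on `d, c0`), `eta <= 1`.
  (a) `x >= eta`: `lower_trivial`: `norm (L) >= eta/2`.
  (b) `x < eta` and `|y| <= eta`: `norm (L(s)) >= norm (L(1)) - 2 eta D' >= c0 q^(-d) - c0 q^(-d)/2` where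
      `D' = 4*3*q^(2d)/d^2` bounds the derivative for `|Im| <= 1`.
  (c) `x < eta`, `|y| > eta`: as in Case 1 but with the principal character: `B = norm (L(chi_0, 1+x+2iy)) <=
      (2 + 2T)(1/(2 eta) + q^(2d)/d)` (`norm_LSeries_triv_le`), valid for all `x` in `(0,1]`; the
      argument of Case 1 gives `norm (L) >= x1`, `x1 = 1/(2^12 * B * D^4)`.
-/

namespace Pool.Agent.H92.SW

open Complex Filter Topology MeasureTheory

/-- The bound of Siegel for primitive quadratic characters. -/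
def SiegelBound : Prop :=
  ∀ ε : ℝ, 0 < ε → ∃ c : ℝ, 0 < c ∧ ∀ (q : ℕ) [NeZero q] (χ : DirichletCharacter ℂ q),
    χ.IsPrimitive → χ ≠ 1 → χ ^ 2 = 1 → c * (q : ℝ) ^ (-ε) ≤ ‖χ.LFunction 1‖

/-- Derivative bound from the Cauchy estimate. -/
lemma norm_deriv_LFunction_le {q : ℕ} [NeZero q] {χ : DirichletCharacter ℂ q} (hχ : χ ≠ 1)
    {d : ℝ} (h0 : 0 < d) (h1 : 2 * d ≤ 1) {w : ℂ} (hw : 1 ≤ w.re) :
    ‖deriv χ.LFunction w‖ ≤ (‖w‖ + 1) * ((q : ℝ) ^ (2 * d) / d) / d := by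
  refine norm_deriv_le_of_forall_mem_sphere_norm_le h0
    (DirichletCharacter.differentiable_LFunction hχ).diffContOnCl ?_
  intro z hz
  have hz' : ‖z - w‖ = d := by simpa [dist_eq_norm] using hz
  have hre : 1 - d ≤ z.re := by
    have h2 : |(z - w).re| ≤ ‖z - w‖ := abs_re_le_norm _
    rw [hz', sub_re, abs_le] at h2
    linarith [h2.1]
  refine (norm_LFunction_le hχ h0 h1 hre).trans ?_
  refine mul_le_mul_of_nonneg_right ?_ (by positivity)
  have h3 : ‖z‖ ≤ ‖w‖ + ‖z - w‖ := by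
    calc ‖z‖ = ‖w + (z - w)‖ := by congr 1; ring
      _ ≤ _ := norm_add_le _ _
  rw [hz'] at h3
  linarith

/-- Lipschitz bound. -/
lemma norm_LFunction_sub_le {q : ℕ} [NeZero q] {χ : DirichletCharacter ℂ q} (hχ : χ ≠ 1)
    {d : ℝ} (h0 : 0 < d) (h1 : 2 * d ≤ 1) {T : ℝ} (hT : 2 ≤ T) {w w' : ℂ}
    (hw : 1 ≤ w.re) (hw2 : w.re ≤ 2) (hw3 : |w.im| ≤ T - 2)
    (hw' : 1 ≤ w'.re) (hw2' : w'.re ≤ 2) (hw3' : |w'.im| ≤ T - 2) :
    ‖χ.LFunction w - χ.LFunction w'‖ ≤ 4 * T * (q : ℝ) ^ (2 * d) / d ^ 2 * ‖w - w'‖ := by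
  have hconv : Convex ℝ {z : ℂ | 1 ≤ z.re ∧ z.re ≤ 2 ∧ -(T - 2) ≤ z.im ∧ z.im ≤ T - 2} := by
    have e : {z : ℂ | 1 ≤ z.re ∧ z.re ≤ 2 ∧ -(T - 2) ≤ z.im ∧ z.im ≤ T - 2} =
        {z : ℂ | 1 ≤ z.re} ∩ ({z : ℂ | z.re ≤ 2} ∩ ({z : ℂ | -(T - 2) ≤ z.im} ∩
          {z : ℂ | z.im ≤ T - 2})) := by
      ext z; simp
    rw [e]
    exact (convex_halfSpace_re_ge 1).inter ((convex_halfSpace_re_le 2).inter
      ((convex_halfSpace_im_ge _).inter (convex_halfSpace_im_le _)))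
  refine hconv.norm_image_sub_le_of_norm_deriv_le (f := χ.LFunction)
    (fun z _ => DirichletCharacter.differentiable_LFunction hχ z) ?_
    ⟨hw', hw2', (abs_le.mp hw3').1, (abs_le.mp hw3').2⟩
    ⟨hw, hw2, (abs_le.mp hw3).1, (abs_le.mp hw3).2⟩
  intro z hz
  refine (norm_deriv_LFunction_le hχ h0 h1 hz.1).trans ?_
  have hn : ‖z‖ ≤ T := by
    refine (norm_le_abs_re_add_abs_im z).trans ?_
    have h4 : |z.re| ≤ 2 := abs_le.mpr ⟨by linarith [hz.1], hz.2.1⟩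
    have h5 : |z.im| ≤ T - 2 := abs_le.mpr ⟨hz.2.2.1, hz.2.2.2⟩
    linarith
  have hq : 0 < (q : ℝ) ^ (2 * d) := Real.rpow_pos_of_pos (Nat.cast_pos.mpr (NeZero.pos q)) _
  rw [mul_div_assoc, div_div, ← pow_two, mul_div_assoc]
  refine mul_le_mul_of_nonneg_right ?_ (by positivity)
  linarith

/-- The numerical core of the 3-4-1 argument. -/
lemma core341 {φ : ℝ → ℝ} {B D : ℝ} (hB : 1 ≤ B) (hD : 1 ≤ D) (h0 : ∀ x, 0 ≤ φ x)
    (h1 : ∀ x, 0 < x → x ≤ 1 → x ^ 3 ≤ 8 * B * φ x ^ 4)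
    (h2 : ∀ x x', 0 < x → x ≤ x' → x' ≤ 1 → φ x' - φ x ≤ D * (x' - x)) :
    ∀ x, 0 < x → x ≤ 1 → 1 / (2 ^ 7 * B * D ^ 4) ≤ φ x := by
  have hB0 : 0 < B := by linarith
  have hD0 : 0 < D := by linarith
  have hBD : 1 ≤ B * D ^ 4 := one_le_mul_of_one_le_of_one_le hB (one_le_pow₀ hD)
  set x1 : ℝ := 1 / (2 ^ 7 * B * D ^ 4) with hx1
  have hx1pos : 0 < x1 := by positivity
  have hx1le : x1 ≤ 1 := by
    rw [hx1, div_le_one (by positivity)]
    nlinarith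
  have hx1D : x1 ≤ x1 * D := by nlinarith
  have key : ∀ x, x1 ≤ x → x ≤ 1 → 2 * (x1 * D) ≤ φ x := by
    intro x hx hx'
    have h3 := h1 x (hx1pos.trans_le hx) hx'
    have h4 : x1 ^ 3 ≤ x ^ 3 := pow_le_pow_left₀ hx1pos.le hx 3
    have h5 : (2 * (x1 * D)) ^ 4 * (8 * B) = x1 ^ 3 := by
      have : x1 * (2 ^ 7 * B * D ^ 4) = 1 := by
        rw [hx1]; field_simp
      calc (2 * (x1 * D)) ^ 4 * (8 * B) = x1 ^ 3 * (x1 * (2 ^ 7 * B * D ^ 4)) := by ring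
        _ = x1 ^ 3 := by rw [this, mul_one]
    have h6 : (2 * (x1 * D)) ^ 4 ≤ φ x ^ 4 := by
      have h7 : (2 * (x1 * D)) ^ 4 * (8 * B) ≤ φ x ^ 4 * (8 * B) := by
        rw [h5]
        calc x1 ^ 3 ≤ x ^ 3 := h4
          _ ≤ 8 * B * φ x ^ 4 := h3
          _ = φ x ^ 4 * (8 * B) := by ring
      exact le_of_mul_le_mul_right h7 (by positivity)
    exact le_of_pow_le_pow_left₀ (by norm_num) (h0 x) h6
  intro x hx hx'
  rcases le_or_gt x1 x with h | h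
  · have := key x h hx'
    linarith
  · have h3 := key x1 le_rfl hx1le
    have h4 := h2 x x1 hx h.le hx1le
    have h5 : D * (x1 - x) ≤ x1 * D := by nlinarith
    linarith

/-- The lower bound in terms of an upper bound for `L(χ²)` on the line `Im = 2 y`. -/
lemma lower_of_upper {q : ℕ} [NeZero q] {χ : DirichletCharacter ℂ q} (hχ : χ ≠ 1)
    {d : ℝ} (h0 : 0 < d) (h1 : 2 * d ≤ 1) {y B : ℝ} (hB1 : 1 ≤ B)
    (hB : ∀ x : ℝ, 0 < x → x ≤ 1 →
      ‖LSeries (fun n : ℕ => (χ ^ 2 : DirichletCharacter ℂ q) n) (1 + x + 2 * I * y)‖ ≤ B)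
    {x : ℝ} (hx : 0 < x) (hx1 : x ≤ 1) :
    1 / (2 ^ 7 * B * (4 * (|y| + 2) * (q : ℝ) ^ (2 * d) / d ^ 2) ^ 4) ≤
      ‖χ.LFunction (1 + x + I * y)‖ := by
  have hq1 : (1 : ℝ) ≤ q := by exact_mod_cast NeZero.one_le
  have hq : 1 ≤ (q : ℝ) ^ (2 * d) := Real.one_le_rpow hq1 (by linarith)
  have hd1 : d ^ 2 ≤ 1 := by nlinarith
  refine core341 (φ := fun x => ‖χ.LFunction (1 + x + I * y)‖) hB1 ?_ (fun _ => norm_nonneg _)
    (fun x hx hx1 => lower341 χ hx hx1 (hB x hx hx1)) ?_ x hx hx1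
  · rw [le_div_iff₀ (by positivity)]
    have : 1 ≤ |y| + 2 := by linarith [abs_nonneg y]
    nlinarith [mul_le_mul this hq zero_le_one (by positivity)]
  · intro x x' hx hxx' hx'
    refine (norm_sub_norm_le _ _).trans ?_
    refine (norm_LFunction_sub_le hχ h0 h1 (T := |y| + 2) (by linarith [abs_nonneg y])
      ?_ ?_ ?_ ?_ ?_ ?_).trans ?_
    · simp; linarith
    · simp; linarith
    · simp
    · simp; linarith
    · simp; linarith
    · simp
    · refine mul_le_mul_of_nonneg_left ?_ (by positivity)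
      have : (1 + (x' : ℂ) + I * y) - (1 + (x : ℂ) + I * y) = ((x' - x : ℝ) : ℂ) := by
        push_cast; ring
      rw [this, norm_real, Real.norm_of_nonneg (by linarith)]

theorem lower_bound (hS : SiegelBound) {ε : ℝ} (hε : 0 < ε) :
    ∃ c : ℝ, 0 < c ∧ ∃ A : ℝ, 0 ≤ A ∧ ∀ (q : ℕ) [NeZero q] (χ : DirichletCharacter ℂ q),
      χ.IsPrimitive → χ ≠ 1 → ∀ s : ℂ, 1 < s.re → s.re ≤ 2 →
        c * (q : ℝ) ^ (-ε) * (|s.im| + 2) ^ (-A) ≤ ‖χ.LFunction s‖ := by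
  set d : ℝ := min (ε / 12) (1 / 2) with hd
  have hd0 : 0 < d := lt_min (by positivity) (by norm_num)
  have hd1 : 2 * d ≤ 1 := by linarith [min_le_right (ε / 12) (1 / 2)]
  have hdε : 12 * d ≤ ε := by linarith [min_le_left (ε / 12) (1 / 2)]
  obtain ⟨c0, hc0, hS0⟩ := hS d hd0
  set c1 : ℝ := min 1 (c0 * d ^ 2 / 48) with hc1
  have hc1pos : 0 < c1 := lt_min one_pos (by positivity)
  have hc1le : c1 ≤ 1 := min_le_left _ _
  have hc1' : 48 * c1 ≤ c0 * d ^ 2 := by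
    have := min_le_right 1 (c0 * d ^ 2 / 48)
    linarith
  set E : ℝ := 1 / (2 * c1) + 1 / d with hE
  have hE1 : 1 ≤ E := by
    have h1 : 1 ≤ 1 / d := by
      rw [le_div_iff₀ hd0]; linarith
    have h2 : 0 < 1 / (2 * c1) := by positivity
    linarith
  have hE0 : 0 < E := by linarith
  set cx : ℝ := d ^ 8 / (2 ^ 7 * 4 * 4 ^ 4 * E) with hcx
  have hcx0 : 0 < cx := by positivity
  refine ⟨min cx (min (c1 / 2) (c0 / 2)), by positivity, 5, by norm_num, ?_⟩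
  intro q _ χ hprim hχ s hs hs2
  set c := min cx (min (c1 / 2) (c0 / 2)) with hc
  have hcpos : 0 < c := by positivity
  have hccx : c ≤ cx := min_le_left _ _
  have hcc1 : c ≤ c1 / 2 := (min_le_right _ _).trans (min_le_left _ _)
  have hcc0 : c ≤ c0 / 2 := (min_le_right _ _).trans (min_le_right _ _)
  have hq1 : (1 : ℝ) ≤ q := by exact_mod_cast NeZero.one_le
  have hqpos : (0 : ℝ) < q := by linarith
  set Q : ℝ := (q : ℝ) ^ d with hQ
  have hQ1 : 1 ≤ Q := Real.one_le_rpow hq1 hd0.le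
  have hQ0 : 0 < Q := by linarith
  have hQ2 : (q : ℝ) ^ (2 * d) = Q ^ 2 := by
    rw [hQ, ← Real.rpow_natCast, ← Real.rpow_mul hqpos.le]
    congr 1
    push_cast
    ring
  have hQ12 : (q : ℝ) ^ (-ε) ≤ (Q ^ 12)⁻¹ := by
    have h1 : Q ^ 12 = (q : ℝ) ^ (12 * d) := by
      rw [hQ, ← Real.rpow_natCast, ← Real.rpow_mul hqpos.le]
      congr 1
      push_cast
      ring
    rw [h1, ← Real.rpow_neg hqpos.le]
    exact Real.rpow_le_rpow_of_exponent_le hq1 (by linarith)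
  set x : ℝ := s.re - 1 with hx
  set y : ℝ := s.im with hy
  have hx0 : 0 < x := by rw [hx]; linarith
  have hx1 : x ≤ 1 := by rw [hx]; linarith
  have hs_eq : s = 1 + x + I * y := by
    apply Complex.ext <;> simp [hx, hy]
  set T : ℝ := |y| + 2 with hT
  have hT2 : 2 ≤ T := by rw [hT]; linarith [abs_nonneg y]
  have hT0 : 0 < T := by linarith
  have hT5 : T ^ (-(5 : ℝ)) = (T ^ 5)⁻¹ := by
    rw [Real.rpow_neg hT0.le]
    norm_num
  rw [hT5]
  have hTinv : (T ^ 5)⁻¹ ≤ 1 := inv_le_one_of_one_le₀ (one_le_pow₀ (by linarith))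
  have hLHS : c * (q : ℝ) ^ (-ε) * (T ^ 5)⁻¹ ≤ c * (Q ^ 12)⁻¹ * (T ^ 5)⁻¹ := by gcongr
  refine hLHS.trans ?_
  -- the 3-4-1 bound in the form needed
  have main : (∀ x : ℝ, 0 < x → x ≤ 1 →
      ‖LSeries (fun n : ℕ => (χ ^ 2 : DirichletCharacter ℂ q) n) (1 + x + 2 * I * y)‖ ≤
        4 * T * Q ^ 4 * E) → c * (Q ^ 12)⁻¹ * (T ^ 5)⁻¹ ≤ ‖χ.LFunction s‖ := by
    intro hB
    have hB1 : 1 ≤ 4 * T * Q ^ 4 * E := by
      have h3 : 1 ≤ Q ^ 4 := one_le_pow₀ hQ1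
      have h4 : 1 ≤ 4 * T := by linarith
      exact one_le_mul_of_one_le_of_one_le (one_le_mul_of_one_le_of_one_le h4 h3) hE1
    have h5 := lower_of_upper hχ hd0 hd1 hB1 hB hx0 hx1
    rw [← hs_eq, hQ2] at h5
    refine le_trans ?_ h5
    calc c * (Q ^ 12)⁻¹ * (T ^ 5)⁻¹ ≤ cx * (Q ^ 12)⁻¹ * (T ^ 5)⁻¹ := by gcongr
      _ = 1 / (2 ^ 7 * (4 * T * Q ^ 4 * E) * (4 * (|y| + 2) * Q ^ 2 / d ^ 2) ^ 4) := by
          rw [hcx, ← hT]
          field_simp
  by_cases hsq : χ ^ 2 = 1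
  · -- quadratic character
    have hη0 : 0 < c1 * (Q ^ 4)⁻¹ := by positivity
    have hη1 : c1 * (Q ^ 4)⁻¹ ≤ 1 := by
      have : (Q ^ 4)⁻¹ ≤ 1 := inv_le_one_of_one_le₀ (one_le_pow₀ hQ1)
      exact mul_le_one₀ hc1le (by positivity) this
    rcases le_or_gt (c1 * (Q ^ 4)⁻¹) x with hxa | hxa
    · -- (a)
      have h6 := lower_trivial χ hs hs2
      have h7 : c * (Q ^ 12)⁻¹ * (T ^ 5)⁻¹ ≤ c1 / 2 * (Q ^ 4)⁻¹ * 1 := by
        have h8 : (Q ^ 12)⁻¹ ≤ (Q ^ 4)⁻¹ := by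
          apply inv_anti₀ (by positivity)
          exact pow_le_pow_right₀ hQ1 (by norm_num)
        gcongr
      have h9 : s.re - 1 = x := rfl
      rw [h9] at h6
      linarith
    · rcases le_or_gt |y| (c1 * (Q ^ 4)⁻¹) with hya | hya
      · -- (b)
        have hS1 := hS0 q χ hprim hχ hsq
        have h6 : (q : ℝ) ^ (-d) = Q⁻¹ := by rw [hQ, Real.rpow_neg hqpos.le]
        rw [h6] at hS1
        have h7 : ‖s - 1‖ ≤ 2 * (c1 * (Q ^ 4)⁻¹) := by
          refine (norm_le_abs_re_add_abs_im _).trans ?_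
          have h8 : (s - 1).re = x := by simp [hx]
          have h9 : (s - 1).im = y := by simp [hy]
          rw [h8, h9, abs_of_pos hx0]
          linarith
        have h8 := norm_LFunction_sub_le hχ hd0 hd1 (T := 3) (by norm_num) (w := s) (w' := 1)
          hs.le hs2 (by rw [← hy]; linarith) (by simp) (by norm_num) (by norm_num)
        rw [hQ2] at h8
        have h9 : 4 * 3 * Q ^ 2 / d ^ 2 * ‖s - 1‖ ≤ c0 / 2 * Q⁻¹ := by
          calc 4 * 3 * Q ^ 2 / d ^ 2 * ‖s - 1‖ ≤ 4 * 3 * Q ^ 2 / d ^ 2 *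
                (2 * (c1 * (Q ^ 4)⁻¹)) := by gcongr
            _ = (48 * c1) / d ^ 2 / 2 * (Q ^ 2)⁻¹ := by
                field_simp
                ring
            _ ≤ (c0 * d ^ 2) / d ^ 2 / 2 * (Q ^ 2)⁻¹ := by gcongr
            _ = c0 / 2 * (Q ^ 2)⁻¹ := by field_simp
            _ ≤ c0 / 2 * Q⁻¹ := by
                have : (Q ^ 2)⁻¹ ≤ Q⁻¹ := by
                  apply inv_anti₀ hQ0
                  nlinarith
                gcongr
        have h10 : ‖χ.LFunction 1‖ ≤ ‖χ.LFunction s‖ + ‖χ.LFunction s - χ.LFunction 1‖ := by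
          calc ‖χ.LFunction 1‖ = ‖χ.LFunction s - (χ.LFunction s - χ.LFunction 1)‖ := by
                congr 1; ring
            _ ≤ _ := norm_sub_le _ _
        have h11 : c * (Q ^ 12)⁻¹ * (T ^ 5)⁻¹ ≤ c0 / 2 * Q⁻¹ * 1 := by
          have h12 : (Q ^ 12)⁻¹ ≤ Q⁻¹ := by
            apply inv_anti₀ hQ0
            exact le_self_pow₀ hQ1 (by norm_num)
          gcongr
        have h13 : c0 * Q⁻¹ = c0 / 2 * Q⁻¹ * 1 + c0 / 2 * Q⁻¹ := by ring
        linarith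
      · -- (c)
        refine main fun x' hx' hx1' => ?_
        rw [hsq]
        have hre : 1 < (1 + (x' : ℂ) + 2 * I * y).re := by simp; linarith
        refine (norm_LSeries_triv_le q hd0 hd1 hre).trans ?_
        rw [hQ2]
        have hn : ‖(1 + (x' : ℂ) + 2 * I * y)‖ ≤ 4 * T := by
          refine (norm_le_abs_re_add_abs_im _).trans ?_
          have h6 : (1 + (x' : ℂ) + 2 * I * y).re = 1 + x' := by simp
          have h7 : (1 + (x' : ℂ) + 2 * I * y).im = 2 * y := by simp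
          rw [h6, h7, abs_of_pos (by linarith), abs_mul, abs_two, hT]
          linarith [abs_nonneg y]
        have hn2 : 2 * (c1 * (Q ^ 4)⁻¹) ≤ ‖(1 + (x' : ℂ) + 2 * I * y) - 1‖ := by
          refine le_trans ?_ (abs_im_le_norm _)
          have h7 : ((1 + (x' : ℂ) + 2 * I * y) - 1).im = 2 * y := by simp
          rw [h7, abs_mul, abs_two]
          linarith
        have h8 : 1 / ‖(1 + (x' : ℂ) + 2 * I * y) - 1‖ ≤ 1 / (2 * c1) * Q ^ 4 := by
          calc 1 / ‖(1 + (x' : ℂ) + 2 * I * y) - 1‖ ≤ 1 / (2 * (c1 * (Q ^ 4)⁻¹)) :=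
                one_div_le_one_div_of_le (by positivity) hn2
            _ = 1 / (2 * c1) * Q ^ 4 := by field_simp
        have h9 : Q ^ 2 / d ≤ 1 / d * Q ^ 4 := by
          have : Q ^ 2 ≤ Q ^ 4 := pow_le_pow_right₀ hQ1 (by norm_num)
          calc Q ^ 2 / d ≤ Q ^ 4 / d := by gcongr
            _ = 1 / d * Q ^ 4 := by ring
        calc ‖(1 + (x' : ℂ) + 2 * I * y)‖ *
              (1 / ‖(1 + (x' : ℂ) + 2 * I * y) - 1‖ + Q ^ 2 / d) ≤
              (4 * T) * (1 / (2 * c1) * Q ^ 4 + 1 / d * Q ^ 4) := by gcongr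
          _ = 4 * T * Q ^ 4 * E := by rw [hE]; ring
  · -- complex character
    refine main fun x' hx' hx1' => ?_
    have hre : 1 < (1 + (x' : ℂ) + 2 * I * y).re := by simp; linarith
    have h6 : LSeries (fun n : ℕ => (χ ^ 2 : DirichletCharacter ℂ q) n)
        (1 + x' + 2 * I * y) = (χ ^ 2).LFunction (1 + x' + 2 * I * y) :=
      (DirichletCharacter.LFunction_eq_LSeries (χ ^ 2) hre).symm
    rw [h6]
    refine (norm_LFunction_le hsq hd0 hd1 (by linarith)).trans ?_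
    rw [hQ2]
    have hn : ‖(1 + (x' : ℂ) + 2 * I * y)‖ ≤ 4 * T := by
      refine (norm_le_abs_re_add_abs_im _).trans ?_
      have h6 : (1 + (x' : ℂ) + 2 * I * y).re = 1 + x' := by simp
      have h7 : (1 + (x' : ℂ) + 2 * I * y).im = 2 * y := by simp
      rw [h6, h7, abs_of_pos (by linarith), abs_mul, abs_two, hT]
      linarith [abs_nonneg y]
    have h9 : Q ^ 2 / d ≤ Q ^ 4 * E := by
      have h10 : Q ^ 2 ≤ Q ^ 4 := pow_le_pow_right₀ hQ1 (by norm_num)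
      have h11 : 1 / d ≤ E := by
        have h2 : 0 < 1 / (2 * c1) := by positivity
        rw [hE]; linarith
      calc Q ^ 2 / d = Q ^ 2 * (1 / d) := by ring
        _ ≤ Q ^ 4 * E := by gcongr
    calc ‖(1 + (x' : ℂ) + 2 * I * y)‖ * (Q ^ 2 / d) ≤ (4 * T) * (Q ^ 4 * E) := by gcongr
      _ = 4 * T * Q ^ 4 * E := by ring

end Pool.Agent.H92.SW
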