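import Pool.Agent.H92.SW.Lower

/-!
# Theorem of Siegel, step 1: the product of four L-functions

`F_alternating`. On `Re s > 1` put `a(n) = Lambda(n) (1 + chi(n)) (1 + psi(n)) >= 0` (the values of `chi`, `psi`
are in `{-1,0,1}` because the squares are the principal characters). Then
`F' = - F * E` with `E = LSeries a` (logarithmic derivative of a product of four non-vanishing functions;
`LSeries_vonMangoldt_eq_deriv_riemannZeta_div`, `DirichletCharacter.LSeries_twist_vonMangoldt_eq`,
`prodChar_apply`). `E` satisfies `0 <= (-1)^k iteratedDeriv k E 2` (`LSeries.iteratedDeriv_alternating`), and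
`F 2 > 0` (see below), so by induction with the Leibniz rule (`iteratedDeriv_mul`, `iteratedDeriv_succ'`)
`(-1)^(k+1) F^(k+1)(2) = sum_i binom(k,i) ((-1)^i F^(i)(2)) ((-1)^(k-i) E^(k-i)(2)) >= 0`.
`F 2 > 0`: `zeta(2) > 0`; for `chi` quadratic `L(2,chi) zeta(2) = LSeries (zetaMul) > 0`
(`DirichletCharacter.zetaMul_nonneg`, `LSeries.positive`) or `|L(2,chi) - 1| <= zeta(2) - 1 < 1` and all coefficients real.
`F_two`: `zeta(2) >= 1` and each `L(2, .)` is real, positive, at least `1/2` (`lower_trivial`).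
-/

namespace Pool.Agent.H92.SW

open Complex Filter Topology MeasureTheory
open scoped ComplexOrder

/-- The product of two characters of different moduli. -/
noncomputable def prodChar {a b : ℕ} (χ : DirichletCharacter ℂ a) (ψ : DirichletCharacter ℂ b) :
    DirichletCharacter ℂ (a * b) :=
  DirichletCharacter.changeLevel (Dvd.intro b rfl) χ *
    DirichletCharacter.changeLevel (Dvd.intro_left a rfl) ψ

lemma prodChar_apply {a b : ℕ} (χ : DirichletCharacter ℂ a) (ψ : DirichletCharacter ℂ b) (n : ℕ) :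
    prodChar χ ψ n = χ n * ψ n := by
  by_cases h : IsCoprime (n : ℤ) ((a * b : ℕ) : ℤ)
  · have h1 := DirichletCharacter.changeLevel_eq_cast_of_dvd' χ (Dvd.intro b rfl : a ∣ a * b) h
    have h2 := DirichletCharacter.changeLevel_eq_cast_of_dvd' ψ (Dvd.intro_left a rfl : b ∣ a * b) h
    rw [prodChar, MulChar.mul_apply]
    simpa using congrArg₂ (· * ·) h1 h2
  · have h0 : prodChar χ ψ n = 0 := by
      apply MulChar.map_nonunit
      rw [ZMod.isUnit_iff_coprime]
      rwa [Nat.isCoprime_iff_coprime] at h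
    rw [h0]
    rw [Nat.isCoprime_iff_coprime, Nat.coprime_mul_iff_right, not_and_or] at h
    rcases h with h | h
    · have : χ n = 0 := by
        apply MulChar.map_nonunit
        rwa [ZMod.isUnit_iff_coprime]
      rw [this, zero_mul]
    · have : ψ n = 0 := by
        apply MulChar.map_nonunit
        rwa [ZMod.isUnit_iff_coprime]
      rw [this, mul_zero]

lemma prodChar_sq {a b : ℕ} {χ : DirichletCharacter ℂ a} {ψ : DirichletCharacter ℂ b}
    (hχ : χ ^ 2 = 1) (hψ : ψ ^ 2 = 1) : prodChar χ ψ ^ 2 = 1 := by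
  rw [prodChar, mul_pow, ← map_pow, ← map_pow, hχ, hψ, map_one, map_one, mul_one]

/-- The product of four L-functions. -/
noncomputable def F {a b : ℕ} [NeZero a] [NeZero b] (χ : DirichletCharacter ℂ a)
    (ψ : DirichletCharacter ℂ b) (s : ℂ) : ℂ :=
  riemannZeta s * χ.LFunction s * ψ.LFunction s * (prodChar χ ψ).LFunction s

/-- A complex number is positive if its product with a positive one is. -/
lemma pos_of_mul_pos_aux {z w : ℂ} (hz : 0 < z) (h : 0 < z * w) : 0 < w := by
  rw [Complex.pos_iff] at hz h ⊢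
  obtain ⟨h1, h2⟩ := hz
  rw [Complex.mul_re, Complex.mul_im, ← h2, zero_mul, sub_zero, zero_mul, add_zero] at h
  obtain ⟨h3, h4⟩ := h
  refine ⟨by
    by_contra hc
    push Not at hc
    nlinarith, ?_⟩
  rcases mul_eq_zero.mp h4.symm with h5 | h5
  · exact absurd h5 h1.ne'
  · exact h5.symm

lemma zeta_pos_aux {x : ℝ} (hx : 1 < x) : 0 < riemannZeta x := by
  have h1 : 1 < (x : ℂ).re := by simpa using hx
  rw [← LSeries_one_eq_riemannZeta h1]
  refine LSeries.positive (fun n => by simp) (by simp) ?_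
  rw [LSeries.abscissaOfAbsConv_one]
  exact_mod_cast hx

/-- For a quadratic character `L(x, χ)` is positive for real `x > 1`. -/
lemma LFunction_pos {a : ℕ} [NeZero a] {χ : DirichletCharacter ℂ a} (hχ : χ ^ 2 = 1) {x : ℝ}
    (hx : 1 < x) : 0 < χ.LFunction x := by
  have h1 : 1 < (x : ℂ).re := by simpa using hx
  refine pos_of_mul_pos_aux (zeta_pos_aux hx) ?_
  have h2 : riemannZeta x * χ.LFunction x = LSeries χ.zetaMul x := by
    rw [DirichletCharacter.zetaMul, ← ArithmeticFunction.coe_mul, LSeries_convolution']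
    · rw [χ.LFunction_eq_LSeries h1]
      congr 1
      · simp_rw [← ArithmeticFunction.LSeries_zeta_eq_riemannZeta h1,
          ← ArithmeticFunction.natCoe_apply]
      · exact LSeries_congr χ.apply_eq_toArithmeticFunction_apply _
    · exact ArithmeticFunction.LSeriesSummable_zeta_iff.mpr h1
    · exact (LSeriesSummable_congr _
        fun h ↦ (χ.apply_eq_toArithmeticFunction_apply h).symm).mpr <|
          ZMod.LSeriesSummable_of_one_lt_re χ h1
  rw [h2]
  refine LSeries.positive (fun n => χ.zetaMul_nonneg hχ n) ?_ ?_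
  · rw [χ.isMultiplicative_zetaMul.map_one]; exact zero_lt_one
  · refine lt_of_le_of_lt (LSeries.abscissaOfAbsConv_le_of_forall_lt_LSeriesSummable (x := 1)
      fun y hy ↦ χ.LSeriesSummable_zetaMul (by simpa using hy)) ?_
    exact_mod_cast hx

lemma ne_one_of_one_lt_re {s : ℂ} (hs : 1 < s.re) : s ≠ 1 := by
  rintro rfl
  simp at hs

/-- Logarithmic derivative of an L-function in the half plane of convergence. -/
lemma hasDerivAt_LFunction_aux {q : ℕ} [NeZero q] (χ : DirichletCharacter ℂ q) {s : ℂ}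
    (hs : 1 < s.re) :
    HasDerivAt χ.LFunction (-(χ.LFunction s *
      LSeries (fun n : ℕ => χ n * (ArithmeticFunction.vonMangoldt n : ℂ)) s)) s := by
  have h1 := (χ.differentiableAt_LFunction s (Or.inl (ne_one_of_one_lt_re hs))).hasDerivAt
  have h2 := DirichletCharacter.LSeries_twist_vonMangoldt_eq χ hs
  have h3 : deriv (LSeries (fun n : ℕ => χ n)) s = deriv χ.LFunction s := by
    refine Filter.EventuallyEq.deriv_eq <| Filter.eventuallyEq_iff_exists_mem.mpr ?_
    exact ⟨{z | 1 < z.re}, (isOpen_lt continuous_const continuous_re).mem_nhds hs,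
      fun z hz ↦ (χ.LFunction_eq_LSeries hz).symm⟩
  have h4 : LSeries (fun n : ℕ => χ n) s ≠ 0 := χ.LSeries_ne_zero_of_one_lt_re hs
  rw [h3, eq_div_iff h4, ← χ.LFunction_eq_LSeries hs] at h2
  have h5 : LSeries (fun n : ℕ => χ n * (ArithmeticFunction.vonMangoldt n : ℂ)) s * χ.LFunction s =
    -deriv χ.LFunction s := h2
  refine h1.congr_deriv ?_
  rw [mul_comm, h5, neg_neg]

lemma hasDerivAt_zeta_aux {s : ℂ} (hs : 1 < s.re) :
    HasDerivAt riemannZeta (-(riemannZeta s *
      LSeries (fun n : ℕ => (ArithmeticFunction.vonMangoldt n : ℂ)) s)) s := by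
  have h1 := (differentiableAt_riemannZeta (ne_one_of_one_lt_re hs)).hasDerivAt
  have h2 := ArithmeticFunction.LSeries_vonMangoldt_eq_deriv_riemannZeta_div hs
  have h4 : riemannZeta s ≠ 0 := riemannZeta_ne_zero_of_one_lt_re hs
  rw [eq_div_iff h4] at h2
  refine h1.congr_deriv ?_
  rw [mul_comm, h2, neg_neg]

/-- The coefficients of the logarithmic derivative of `F`. -/
noncomputable def cf {a b : ℕ} (χ : DirichletCharacter ℂ a) (ψ : DirichletCharacter ℂ b) (n : ℕ) :
    ℂ := (ArithmeticFunction.vonMangoldt n : ℂ) * ((1 + χ n) * (1 + ψ n))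

lemma one_add_nonneg_aux {a : ℕ} {χ : DirichletCharacter ℂ a} (hχ : χ ^ 2 = 1) (n : ℕ) :
    0 ≤ 1 + χ n := by
  rcases MulChar.isQuadratic_iff_sq_eq_one.mpr hχ n with h | h | h
  · rw [h, add_zero]; exact zero_le_one
  · rw [h]; exact add_nonneg zero_le_one zero_le_one
  · rw [h, add_neg_cancel]

lemma cf_nonneg {a b : ℕ} {χ : DirichletCharacter ℂ a} {ψ : DirichletCharacter ℂ b}
    (hχ : χ ^ 2 = 1) (hψ : ψ ^ 2 = 1) : 0 ≤ cf χ ψ := by
  intro n
  refine mul_nonneg ?_ (mul_nonneg (one_add_nonneg_aux hχ n) (one_add_nonneg_aux hψ n))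
  exact Complex.zero_le_real.mpr ArithmeticFunction.vonMangoldt_nonneg

lemma cf_eq {a b : ℕ} (χ : DirichletCharacter ℂ a) (ψ : DirichletCharacter ℂ b) :
    cf χ ψ = (fun n : ℕ => (ArithmeticFunction.vonMangoldt n : ℂ)) +
      (fun n : ℕ => χ n * (ArithmeticFunction.vonMangoldt n : ℂ)) +
      (fun n : ℕ => ψ n * (ArithmeticFunction.vonMangoldt n : ℂ)) +
      (fun n : ℕ => prodChar χ ψ n * (ArithmeticFunction.vonMangoldt n : ℂ)) := by
  funext n
  simp only [cf, Pi.add_apply, prodChar_apply]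
  ring

lemma cf_summable {a b : ℕ} (χ : DirichletCharacter ℂ a) (ψ : DirichletCharacter ℂ b) {s : ℂ}
    (hs : 1 < s.re) : LSeriesSummable (cf χ ψ) s ∧ LSeries (cf χ ψ) s =
      LSeries (fun n : ℕ => (ArithmeticFunction.vonMangoldt n : ℂ)) s +
      LSeries (fun n : ℕ => χ n * (ArithmeticFunction.vonMangoldt n : ℂ)) s +
      LSeries (fun n : ℕ => ψ n * (ArithmeticFunction.vonMangoldt n : ℂ)) s +
      LSeries (fun n : ℕ => prodChar χ ψ n * (ArithmeticFunction.vonMangoldt n : ℂ)) s := by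
  have h1 := ArithmeticFunction.LSeriesSummable_vonMangoldt hs
  have h2 : LSeriesSummable (fun n : ℕ => χ n * (ArithmeticFunction.vonMangoldt n : ℂ)) s :=
    χ.LSeriesSummable_twist_vonMangoldt hs
  have h3 : LSeriesSummable (fun n : ℕ => ψ n * (ArithmeticFunction.vonMangoldt n : ℂ)) s :=
    ψ.LSeriesSummable_twist_vonMangoldt hs
  have h4 : LSeriesSummable (fun n : ℕ => prodChar χ ψ n *
      (ArithmeticFunction.vonMangoldt n : ℂ)) s :=
    (prodChar χ ψ).LSeriesSummable_twist_vonMangoldt hs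
  rw [cf_eq]
  refine ⟨((h1.add h2).add h3).add h4, ?_⟩
  rw [LSeries_add ((h1.add h2).add h3) h4, LSeries_add (h1.add h2) h3, LSeries_add h1 h2]

lemma hasDerivAt_F {a b : ℕ} [NeZero a] [NeZero b] (χ : DirichletCharacter ℂ a)
    (ψ : DirichletCharacter ℂ b) {s : ℂ} (hs : 1 < s.re) :
    HasDerivAt (F χ ψ) (-(F χ ψ s * LSeries (cf χ ψ) s)) s := by
  have h := (((hasDerivAt_zeta_aux hs).mul (hasDerivAt_LFunction_aux χ hs)).mul
    (hasDerivAt_LFunction_aux ψ hs)).mul (hasDerivAt_LFunction_aux (prodChar χ ψ) hs)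
  have h' : HasDerivAt (F χ ψ) _ s := h
  refine h'.congr_deriv ?_
  rw [(cf_summable χ ψ hs).2]
  simp only [F, Pi.mul_apply]
  ring

lemma F_analyticAt {a b : ℕ} [NeZero a] [NeZero b] (χ : DirichletCharacter ℂ a)
    (ψ : DirichletCharacter ℂ b) : AnalyticAt ℂ (F χ ψ) 2 := by
  have hop : IsOpen {z : ℂ | 1 < z.re} := isOpen_lt continuous_const continuous_re
  have h : DifferentiableOn ℂ (F χ ψ) {z : ℂ | 1 < z.re} := fun z hz =>
    (hasDerivAt_F χ ψ hz).differentiableAt.differentiableWithinAt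
  exact h.analyticAt (hop.mem_nhds (by norm_num))

lemma cf_abscissa {a b : ℕ} (χ : DirichletCharacter ℂ a) (ψ : DirichletCharacter ℂ b) :
    LSeries.abscissaOfAbsConv (cf χ ψ) < ((2 : ℝ) : EReal) := by
  refine lt_of_le_of_lt (LSeries.abscissaOfAbsConv_le_of_forall_lt_LSeriesSummable (x := 1)
    fun y hy ↦ (cf_summable χ ψ (by simpa using hy)).1) ?_
  exact_mod_cast one_lt_two

theorem F_alternating {a b : ℕ} [NeZero a] [NeZero b] {χ : DirichletCharacter ℂ a}
    {ψ : DirichletCharacter ℂ b} (hχ : χ ^ 2 = 1) (hψ : ψ ^ 2 = 1) (k : ℕ) :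
    0 ≤ (-1) ^ k * iteratedDeriv k (F χ ψ) 2 := by
  induction k using Nat.strong_induction_on with
  | _ k ih =>
    rcases k with _ | k
    · rw [pow_zero, one_mul, iteratedDeriv_zero]
      have e2 : (2 : ℂ) = ((2 : ℝ) : ℂ) := by norm_num
      have h0 := zeta_pos_aux (x := 2) (by norm_num)
      have h1 := LFunction_pos hχ (x := 2) (by norm_num)
      have h2 := LFunction_pos hψ (x := 2) (by norm_num)
      have h3 := LFunction_pos (prodChar_sq hχ hψ) (x := 2) (by norm_num)
      rw [e2]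
      exact (mul_pos (mul_pos (mul_pos h0 h1) h2) h3).le
    · have hA := F_analyticAt χ ψ
      have hE : AnalyticAt ℂ (LSeries (cf χ ψ)) 2 :=
        (LSeries_analyticOnNhd (cf χ ψ)) 2 (by simpa using cf_abscissa χ ψ)
      have h1 : deriv (F χ ψ) =ᶠ[𝓝 2] fun s => -((F χ ψ * LSeries (cf χ ψ)) s) := by
        have hop : IsOpen {z : ℂ | 1 < z.re} := isOpen_lt continuous_const continuous_re
        filter_upwards [hop.mem_nhds (show (2 : ℂ) ∈ {z : ℂ | 1 < z.re} by norm_num)] with z hz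
        exact (hasDerivAt_F χ ψ hz).deriv
      rw [iteratedDeriv_succ', h1.iteratedDeriv_eq, iteratedDeriv_fun_neg,
        iteratedDeriv_mul hA.contDiffAt hE.contDiffAt, pow_succ]
      have h2 : (-1 : ℂ) ^ k * -1 * -(∑ i ∈ Finset.range (k + 1),
          (k.choose i : ℂ) * iteratedDeriv i (F χ ψ) 2 *
            iteratedDeriv (k - i) (LSeries (cf χ ψ)) 2) =
          ∑ i ∈ Finset.range (k + 1), (k.choose i : ℂ) *
            (((-1) ^ i * iteratedDeriv i (F χ ψ) 2) *
              ((-1) ^ (k - i) * iteratedDeriv (k - i) (LSeries (cf χ ψ)) 2)) := by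
        rw [mul_assoc, neg_one_mul, neg_neg, Finset.mul_sum]
        refine Finset.sum_congr rfl fun i hi => ?_
        have hik : i ≤ k := Nat.lt_succ_iff.mp (Finset.mem_range.mp hi)
        have h3 : (-1 : ℂ) ^ k = (-1) ^ i * (-1) ^ (k - i) := by
          rw [← pow_add, Nat.add_sub_cancel' hik]
        rw [h3]
        ring
      rw [h2]
      refine Finset.sum_nonneg fun i hi => ?_
      refine mul_nonneg (by exact_mod_cast Nat.zero_le _) (mul_nonneg (ih i ?_) ?_)
      · exact Finset.mem_range.mp hi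
      · have := LSeries.iteratedDeriv_alternating (cf_nonneg hχ hψ) (cf_abscissa χ ψ) (k - i)
        simpa using this

theorem F_two {a b : ℕ} [NeZero a] [NeZero b] {χ : DirichletCharacter ℂ a}
    {ψ : DirichletCharacter ℂ b} (hχ : χ ^ 2 = 1) (hψ : ψ ^ 2 = 1) : 1 / 8 ≤ (F χ ψ 2).re := by
  have hz : 1 ≤ (riemannZeta 2).re ∧ (riemannZeta 2).im = 0 := by
    rw [riemannZeta_two]
    have h3 : ((Real.pi : ℂ) ^ 2 / 6) = ((Real.pi ^ 2 / 6 : ℝ) : ℂ) := by push_cast; ring
    rw [h3, Complex.ofReal_re, Complex.ofReal_im]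
    refine ⟨?_, rfl⟩
    nlinarith [Real.pi_gt_three]
  have key : ∀ {c : ℕ} [NeZero c] {φ : DirichletCharacter ℂ c}, φ ^ 2 = 1 →
      1 / 2 ≤ (φ.LFunction 2).re ∧ (φ.LFunction 2).im = 0 := by
    intro c _ φ hφ
    have h1 := LFunction_pos hφ (x := 2) (by norm_num)
    have h2 := lower_trivial φ (s := 2) (by norm_num) (by norm_num)
    rw [Complex.ofReal_ofNat, Complex.pos_iff] at h1
    refine ⟨?_, h1.2.symm⟩
    have h3 : ‖φ.LFunction 2‖ = (φ.LFunction 2).re := by
      have : φ.LFunction 2 = (((φ.LFunction 2).re : ℝ) : ℂ) := by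
        apply Complex.ext <;> simp [← h1.2]
      rw [this, Complex.norm_real, Complex.ofReal_re, Real.norm_of_nonneg h1.1.le]
    rw [h3] at h2
    norm_num at h2
    linarith
  obtain ⟨z1, z2⟩ := hz
  obtain ⟨a1, a2⟩ := key hχ
  obtain ⟨b1, b2⟩ := key hψ
  obtain ⟨c1, c2⟩ := key (prodChar_sq hχ hψ)
  unfold F
  simp only [Complex.mul_re, Complex.mul_im, z2, a2, b2, c2, mul_zero, zero_mul, sub_zero,
    add_zero]
  set Z := (riemannZeta 2).re
  set A := (χ.LFunction 2).re
  set B := (ψ.LFunction 2).re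
  set C := ((prodChar χ ψ).LFunction 2).re
  have h4 : 1 / 2 ≤ Z * A := by nlinarith
  have h5 : 1 / 4 ≤ Z * A * B := by nlinarith
  nlinarith

end Pool.Agent.H92.SW
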