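import Pool.Agent.H92.SW.Sieg1

/-!
# Theorem of Siegel, step 2: removal of the pole, Cauchy estimates at `2`

`H(s) = (s-1) F(s)` is entire (Mathlib: `differentiable_LFunctionTrivChar₁`, `LFunction_modOne_eq`), `H(1) = lam`.
`G = dslope H 1` is entire. For `s <> 1`: `G s = (H s - lam)/(s-1) = F s - lam/(s-1)`.
`G_bound`: on the circle `norm (s-2) = 3/2` we have `1/2 <= Re s`, `norm s <= 7/2`, `norm (s-1) >= 1/2`, and
`norm (L(s,chi)) <= norm s * q / (1/2) <= 7 q` (`norm_LFunction_le` with `delta = 1/2`), also at `s = 1`: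
`norm (L(1,chi)) <= 2 q`; `zeta` is continuous on the compact circle (`1` is not on it), so bounded by some `C0`. The product of
the three moduli is `a * b * (a*b)`.
`G_coeff`: `Complex.norm_iteratedDeriv_le_of_forall_mem_sphere_norm_le` with radius `3/2`.
`G_iteratedDeriv`: near `2`, `G = F - lam * (s-1)^(-1)`; the `k`-th derivative of `(s-1)^(-1)` at `2` is `(-1)^k k!`.
-/

namespace Pool.Agent.H92.SW

open Complex Filter Topology MeasureTheory
open scoped ComplexOrder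

/-- `(s-1) F(s)`, an entire function. -/
noncomputable def H {a b : ℕ} [NeZero a] [NeZero b] (χ : DirichletCharacter ℂ a)
    (ψ : DirichletCharacter ℂ b) (s : ℂ) : ℂ :=
  DirichletCharacter.LFunctionTrivChar₁ 1 s * χ.LFunction s * ψ.LFunction s *
    (prodChar χ ψ).LFunction s

/-- The residue of `F` at `1`. -/
noncomputable def lam {a b : ℕ} [NeZero a] [NeZero b] (χ : DirichletCharacter ℂ a)
    (ψ : DirichletCharacter ℂ b) : ℂ :=
  χ.LFunction 1 * ψ.LFunction 1 * (prodChar χ ψ).LFunction 1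

/-- `F` with its pole removed. -/
noncomputable def G {a b : ℕ} [NeZero a] [NeZero b] (χ : DirichletCharacter ℂ a)
    (ψ : DirichletCharacter ℂ b) : ℂ → ℂ := dslope (H χ ψ) 1

variable {a b : ℕ} [NeZero a] [NeZero b] {χ : DirichletCharacter ℂ a}
    {ψ : DirichletCharacter ℂ b}

theorem H_differentiable (h1 : χ ≠ 1) (h2 : ψ ≠ 1) (h3 : prodChar χ ψ ≠ 1) :
    Differentiable ℂ (H χ ψ) := by
  have e1 : Differentiable ℂ (DirichletCharacter.LFunctionTrivChar₁ 1) :=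
    DirichletCharacter.differentiable_LFunctionTrivChar₁ 1
  have e2 := DirichletCharacter.differentiable_LFunction h1
  have e3 := DirichletCharacter.differentiable_LFunction h2
  have e4 := DirichletCharacter.differentiable_LFunction h3
  exact ((e1.mul e2).mul e3).mul e4

lemma H_one (χ : DirichletCharacter ℂ a) (ψ : DirichletCharacter ℂ b) :
    H χ ψ 1 = lam χ ψ := by
  unfold H lam
  have : DirichletCharacter.LFunctionTrivChar₁ 1 1 = 1 := by
    simp [DirichletCharacter.LFunctionTrivChar₁]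
  rw [this, one_mul]

lemma H_of_ne (χ : DirichletCharacter ℂ a) (ψ : DirichletCharacter ℂ b) {s : ℂ} (hs : s ≠ 1) :
    H χ ψ s = (s - 1) * F χ ψ s := by
  unfold H F
  have : DirichletCharacter.LFunctionTrivChar₁ 1 s = (s - 1) * riemannZeta s := by
    unfold DirichletCharacter.LFunctionTrivChar₁ DirichletCharacter.LFunctionTrivChar
    rw [Function.update_of_ne hs, DirichletCharacter.LFunction_modOne_eq]
  rw [this]
  ring

theorem G_differentiable (h1 : χ ≠ 1) (h2 : ψ ≠ 1) (h3 : prodChar χ ψ ≠ 1) :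
    Differentiable ℂ (G χ ψ) := by
  unfold G
  rw [← differentiableOn_univ]
  exact (Complex.differentiableOn_dslope Filter.univ_mem).mpr
    (H_differentiable h1 h2 h3).differentiableOn

theorem G_eq (χ : DirichletCharacter ℂ a) (ψ : DirichletCharacter ℂ b) {s : ℂ} (hs : s ≠ 1) :
    G χ ψ s = F χ ψ s - lam χ ψ / (s - 1) := by
  have h : s - 1 ≠ 0 := sub_ne_zero.mpr hs
  unfold G
  rw [dslope_of_ne _ hs, slope_def_field, H_of_ne χ ψ hs, H_one, sub_div,
    mul_div_cancel_left₀ _ h]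

lemma norm_LFunction_le_half {q : ℕ} [NeZero q] {χ : DirichletCharacter ℂ q} (hχ : χ ≠ 1)
    {s : ℂ} (hs : 1 / 2 ≤ s.re) : ‖χ.LFunction s‖ ≤ ‖s‖ * (2 * q) := by
  have h := norm_LFunction_le hχ (δ := 1 / 2) (by norm_num) (by norm_num) (s := s)
    (by linarith)
  have e : (q : ℝ) ^ (2 * (1 / 2) : ℝ) / (1 / 2) = 2 * q := by
    rw [show (2 * (1 / 2) : ℝ) = 1 by norm_num, Real.rpow_one]
    ring
  rwa [e] at h

lemma norm_lam_le (h1 : χ ≠ 1) (h2 : ψ ≠ 1) (h3 : prodChar χ ψ ≠ 1) :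
    ‖lam χ ψ‖ ≤ 8 * ((a : ℝ) * b) ^ 2 := by
  have hr : (1 : ℝ) / 2 ≤ (1 : ℂ).re := by
    rw [Complex.one_re]; norm_num
  have e1 := norm_LFunction_le_half h1 hr
  have e2 := norm_LFunction_le_half h2 hr
  have e3 := norm_LFunction_le_half h3 hr
  rw [norm_one, one_mul] at e1 e2 e3
  unfold lam
  rw [norm_mul, norm_mul]
  calc ‖χ.LFunction 1‖ * ‖ψ.LFunction 1‖ * ‖(prodChar χ ψ).LFunction 1‖
      ≤ (2 * a) * (2 * b) * (2 * ((a * b : ℕ) : ℝ)) := by
        gcongr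
    _ = 8 * ((a : ℝ) * b) ^ 2 := by
        push_cast
        ring

lemma sphere_facts {s : ℂ} (hs : s ∈ Metric.sphere (2 : ℂ) (3 / 2)) :
    1 / 2 ≤ s.re ∧ ‖s‖ ≤ 7 / 2 ∧ 1 / 2 ≤ ‖s - 1‖ := by
  rw [mem_sphere_iff_norm] at hs
  refine ⟨?_, ?_, ?_⟩
  · have h1 := Complex.abs_re_le_norm (s - 2)
    rw [hs] at h1
    have h2 := (abs_le.mp h1).1
    have h3 : (s - 2).re = s.re - 2 := by simp
    rw [h3] at h2
    linarith
  · calc ‖s‖ = ‖(s - 2) + 2‖ := by ring_nf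
      _ ≤ ‖s - 2‖ + ‖(2 : ℂ)‖ := norm_add_le _ _
      _ = 7 / 2 := by
        rw [hs]
        norm_num
  · have h : ‖s - 2‖ ≤ ‖s - 1‖ + ‖(-1 : ℂ)‖ := by
      calc ‖s - 2‖ = ‖(s - 1) + (-1)‖ := by ring_nf
        _ ≤ _ := norm_add_le _ _
    rw [hs, norm_neg, norm_one] at h
    linarith

lemma zeta_bound_sphere : ∃ C : ℝ, 0 < C ∧ ∀ s ∈ Metric.sphere (2 : ℂ) (3 / 2),
    ‖riemannZeta s‖ ≤ C := by
  have hc : ContinuousOn riemannZeta (Metric.sphere (2 : ℂ) (3 / 2)) := by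
    intro s hs
    have h1 : s ≠ 1 := by
      rintro rfl
      have := (sphere_facts hs).2.2
      norm_num at this
    exact (differentiableAt_riemannZeta h1).continuousAt.continuousWithinAt
  obtain ⟨C, hC⟩ := (isCompact_sphere (2 : ℂ) (3 / 2)).exists_bound_of_continuousOn hc
  exact ⟨max C 1, by positivity, fun s hs => (hC s hs).trans (le_max_left _ _)⟩

theorem G_coeff : ∃ C : ℝ, 0 < C ∧ ∀ (a b : ℕ) [NeZero a] [NeZero b] (χ : DirichletCharacter ℂ a)
    (ψ : DirichletCharacter ℂ b), χ ≠ 1 → ψ ≠ 1 → prodChar χ ψ ≠ 1 → ∀ k : ℕ,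
    ‖iteratedDeriv k (G χ ψ) 2‖ ≤ k.factorial * (C * ((a : ℝ) * b) ^ 2 * (2 / 3) ^ k) := by
  obtain ⟨C0, hC0, hz⟩ := zeta_bound_sphere
  refine ⟨343 * C0 + 16, by positivity, ?_⟩
  intro a b _ _ χ ψ h1 h2 h3 k
  have hd : DiffContOnCl ℂ (G χ ψ) (Metric.ball 2 (3 / 2)) :=
    (G_differentiable h1 h2 h3).diffContOnCl
  have hb : ∀ s ∈ Metric.sphere (2 : ℂ) (3 / 2),
      ‖G χ ψ s‖ ≤ (343 * C0 + 16) * ((a : ℝ) * b) ^ 2 := by
    intro s hs
    obtain ⟨hre, hn, hm⟩ := sphere_facts hs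
    have hs1 : s ≠ 1 := by
      rintro rfl
      norm_num at hm
    have e1 := norm_LFunction_le_half h1 hre
    have e2 := norm_LFunction_le_half h2 hre
    have e3 := norm_LFunction_le_half h3 hre
    have f1 : ‖χ.LFunction s‖ ≤ 7 * a := e1.trans (by nlinarith [Nat.cast_nonneg (α := ℝ) a])
    have f2 : ‖ψ.LFunction s‖ ≤ 7 * b := e2.trans (by nlinarith [Nat.cast_nonneg (α := ℝ) b])
    have f3 : ‖(prodChar χ ψ).LFunction s‖ ≤ 7 * ((a * b : ℕ) : ℝ) :=
      e3.trans (by nlinarith [Nat.cast_nonneg (α := ℝ) (a * b)])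
    have g1 : ‖F χ ψ s‖ ≤ 343 * C0 * ((a : ℝ) * b) ^ 2 := by
      unfold F
      rw [norm_mul, norm_mul, norm_mul]
      calc ‖riemannZeta s‖ * ‖χ.LFunction s‖ * ‖ψ.LFunction s‖ * ‖(prodChar χ ψ).LFunction s‖
          ≤ C0 * (7 * a) * (7 * b) * (7 * ((a * b : ℕ) : ℝ)) := by
            gcongr
            exact hz s hs
        _ = 343 * C0 * ((a : ℝ) * b) ^ 2 := by
            push_cast
            ring
    have g2 : ‖lam χ ψ / (s - 1)‖ ≤ 16 * ((a : ℝ) * b) ^ 2 := by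
      rw [norm_div, div_le_iff₀ (by linarith)]
      have := norm_lam_le h1 h2 h3
      have hp : (0 : ℝ) ≤ ((a : ℝ) * b) ^ 2 := by positivity
      nlinarith
    rw [G_eq χ ψ hs1]
    calc ‖F χ ψ s - lam χ ψ / (s - 1)‖ ≤ ‖F χ ψ s‖ + ‖lam χ ψ / (s - 1)‖ := norm_sub_le _ _
      _ ≤ 343 * C0 * ((a : ℝ) * b) ^ 2 + 16 * ((a : ℝ) * b) ^ 2 := add_le_add g1 g2
      _ = (343 * C0 + 16) * ((a : ℝ) * b) ^ 2 := by ring
  have h := Complex.norm_iteratedDeriv_le_of_forall_mem_sphere_norm_le k (by norm_num) hd hb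
  refine h.trans (le_of_eq ?_)
  rw [show (2 / 3 : ℝ) = (3 / 2)⁻¹ by norm_num, inv_pow]
  field_simp

theorem G_iteratedDeriv (h1 : χ ≠ 1) (h2 : ψ ≠ 1) (h3 : prodChar χ ψ ≠ 1) (k : ℕ) :
    iteratedDeriv k (G χ ψ) 2 =
      iteratedDeriv k (F χ ψ) 2 - lam χ ψ * ((-1) ^ k * k.factorial) := by
  have hne : ({1}ᶜ : Set ℂ) ∈ 𝓝 (2 : ℂ) :=
    isOpen_compl_singleton.mem_nhds (by simp)
  have hev : F χ ψ =ᶠ[𝓝 2] fun s => G χ ψ s + lam χ ψ * (fun z : ℂ => z⁻¹) (s - 1) := by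
    filter_upwards [hne] with s hs
    have hs1 : s ≠ 1 := by simpa using hs
    rw [G_eq χ ψ hs1]
    simp only [div_eq_mul_inv]
    ring
  have hG : ContDiffAt ℂ k (G χ ψ) 2 := (G_differentiable h1 h2 h3).contDiff.contDiffAt
  have hI : ContDiffAt ℂ k (fun s : ℂ => lam χ ψ * (fun z : ℂ => z⁻¹) (s - 1)) 2 := by
    refine contDiffAt_const.mul ?_
    refine ContDiffAt.inv (contDiffAt_id.sub contDiffAt_const) ?_
    norm_num
  have hkey : iteratedDeriv k (fun s : ℂ => (fun z : ℂ => z⁻¹) (s - 1)) 2 =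
      (-1) ^ k * k.factorial := by
    rw [iteratedDeriv_comp_sub_const k (fun z : ℂ => z⁻¹) 1]
    simp only [iteratedDeriv_eq_iterate]
    have := iter_deriv_inv (𝕜 := ℂ) k (2 - 1)
    have e : (Inv.inv : ℂ → ℂ) = fun z : ℂ => z⁻¹ := rfl
    rw [e] at this
    rw [this, show (2 - 1 : ℂ) = 1 by norm_num, one_zpow, mul_one]
  rw [hev.iteratedDeriv_eq k, iteratedDeriv_fun_add hG hI, iteratedDeriv_const_mul_field, hkey]
  ring

end Pool.Agent.H92.SW
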