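import Pool.Agent.H92.SW.Integral

/-!
# Bounds for Dirichlet series with coefficients of absolute value at most one

Proofs.

`norm_LSeries_le_re`: `norm (LSeries f s) <= sum n^(-Re s) = zeta (Re s)`, and for real `u > 1`
`zeta u = u * integral_1^infinity floor(t) t^(-u-1) dt <= u * integral_1^infinity t^(-u) dt = u/(u-1)`
(Mathlib: `LSeries_eq_mul_integral` with `r = 1`, or any comparison of the sum with an integral).

`norm_LSeries_triv_le`: let `mu = phi(q)/q`, `g x = (1 : DirichletCharacter) x - mu` on `ZMod q`.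
Its sum over `ZMod q` is zero and `norm (g x) <= 1`, so by `norm_sum_Icc_le_period` the partial sums
`S(t) = sum_{n <= t, (n,q)=1} 1` satisfy `|S(t) - mu floor(t)| <= q`, hence `|S(t) - mu t| <= 2 q`;
also `|S(t) - mu t| <= 2 t` for `t >= 1`. So `|S(t) - mu t| <= 2 q^(2 delta) t^(1 - 2 delta)`.
By `LSeries_eq_mul_integral` (`r = 1`): `L(s) = s * integral_1^infinity S(t) t^(-s-1) dt
= mu * s/(s-1) + s * integral_1^infinity (S(t) - mu t) t^(-s-1) dt`, and the last integral is at most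
`2 q^(2 delta) / (Re s - 1 + 2 delta) <= q^(2 delta)/delta`. (Compare `norm_LFunction_le`.)
-/

namespace Pool.Agent.H92.SW

open Complex Filter Topology MeasureTheory

lemma triv_tsum_le {u : ℝ} (hu : 1 < u) : ∑' n : ℕ, 1 / (n : ℝ) ^ u ≤ u / (u - 1) := by
  have hs : Summable (fun n : ℕ => 1 / (n : ℝ) ^ u) := Real.summable_one_div_nat_rpow.2 hu
  rw [hs.tsum_eq_zero_add]
  have h0 : (1 : ℝ) / ((0 : ℕ) : ℝ) ^ u = 0 := by
    rw [Nat.cast_zero, Real.zero_rpow (by linarith), div_zero]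
  rw [h0, zero_add]
  have h1 := ZetaAsymptotics.zeta_limit_aux1 hu
  have h2 : 0 ≤ ZetaAsymptotics.termTSum u := by
    rw [ZetaAsymptotics.termTSum_of_lt hu]
    have h3 : (1 : ℝ) / (u - 1) - 1 / u * ∑' n : ℕ, 1 / (n + 1 : ℝ) ^ u =
        ∑' n : ℕ, ZetaAsymptotics.term (n + 1) u := by
      rw [← ZetaAsymptotics.termTSum_of_lt hu]
      rfl
    rw [h3]
    exact tsum_nonneg (fun n => ZetaAsymptotics.term_nonneg _ _)
  have h3 : (0 : ℝ) < u - 1 := by linarith
  have h4 : u / (u - 1) = 1 + 1 / (u - 1) := by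
    field_simp
    ring
  rw [h4]
  push_cast
  nlinarith

lemma norm_LSeries_le_re {f : ℕ → ℂ} (hf : ∀ n, ‖f n‖ ≤ 1) {s : ℂ} (hs : 1 < s.re) :
    ‖LSeries f s‖ ≤ s.re / (s.re - 1) := by
  have hS : Summable (fun n : ℕ => 1 / (n : ℝ) ^ s.re) := Real.summable_one_div_nat_rpow.2 hs
  have hb : ∀ n, ‖LSeries.term f s n‖ ≤ 1 / (n : ℝ) ^ s.re := by
    intro n
    rw [LSeries.norm_term_eq]
    split_ifs with h
    · positivity
    · have := hf n
      gcongr
  exact (tsum_of_norm_bounded hS.hasSum hb).trans (triv_tsum_le hs)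

theorem norm_LSeries_triv_le (q : ℕ) [NeZero q] {δ : ℝ} (h0 : 0 < δ) (h1 : 2 * δ ≤ 1) {s : ℂ}
    (hs : 1 < s.re) :
    ‖LSeries (fun n : ℕ => (1 : DirichletCharacter ℂ q) n) s‖ ≤
      ‖s‖ * (1 / ‖s - 1‖ + (q : ℝ) ^ (2 * δ) / δ) := by
  set f : ℕ → ℂ := fun n : ℕ => (1 : DirichletCharacter ℂ q) n with hf
  have hq : 0 < q := Nat.pos_of_ne_zero (NeZero.ne q)
  have hqR : (1 : ℝ) ≤ q := by exact_mod_cast hq
  have hf1 : ∀ n, ‖f n‖ ≤ 1 := fun n => DirichletCharacter.norm_le_one _ _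
  have hfS : ∀ t : ℝ, 0 ≤ t → ‖S f t‖ ≤ t := fun t ht => norm_S_le hf1 ht
  have hsum : LSeriesSummable f s := DirichletCharacter.LSeriesSummable_of_one_lt_re 1 hs
  have hL : LSeries f s = s * ∫ t in Set.Ioi (1 : ℝ), S f t * (t : ℂ) ^ (-(s + 1)) := by
    refine LSeries_eq_mul_integral f (r := 1) zero_le_one hs hsum ?_
    refine Asymptotics.IsBigO.of_bound 1 (Eventually.of_forall fun n => ?_)
    have h3 := hfS (n : ℝ) (Nat.cast_nonneg n)
    rw [Real.rpow_one, one_mul, Real.norm_of_nonneg (Nat.cast_nonneg n)]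
    simpa [S] using h3
  set mu : ℝ := (q.totient : ℝ) / q with hmu
  have hmu0 : 0 ≤ mu := by positivity
  have hmu1 : mu ≤ 1 := by
    rw [hmu, div_le_one (by linarith)]
    exact_mod_cast Nat.totient_le q
  -- the partial sums
  have hp : ∀ n : ℕ, ‖∑ k ∈ Finset.Icc 1 n, (f k - (mu : ℂ))‖ ≤ q := by
    intro n
    refine norm_sum_Icc_le_period (fun x : ZMod q => (1 : DirichletCharacter ℂ q) x - (mu : ℂ))
      ?_ ?_ n
    · rw [Finset.sum_sub_distrib, MulChar.sum_one_eq_card_units, ZMod.card_units_eq_totient]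
      simp only [Finset.sum_const, Finset.card_univ, ZMod.card, nsmul_eq_mul]
      rw [hmu]
      push_cast
      have : (q : ℂ) ≠ 0 := by exact_mod_cast hq.ne'
      field_simp
      ring
    · intro x
      by_cases hx : IsUnit x
      · rw [MulChar.one_apply hx]
        have h5 : (1 : ℂ) - (mu : ℂ) = ((1 - mu : ℝ) : ℂ) := by push_cast; ring
        rw [h5, Complex.norm_real, Real.norm_of_nonneg (by linarith)]
        linarith
      · rw [MulChar.map_nonunit _ hx, zero_sub, norm_neg, Complex.norm_real,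
          Real.norm_of_nonneg hmu0]
        exact hmu1
  have hD : ∀ t : ℝ, 1 ≤ t → ‖S f t - mu * t‖ ≤ 2 * (q : ℝ) ^ (2 * δ) * t ^ (1 - 2 * δ) := by
    intro t ht
    have ht0 : 0 < t := by linarith
    have e1 : ‖S f t - mu * t‖ ≤ 2 * q := by
      have e2 : S f t - (mu : ℂ) * t = ∑ k ∈ Finset.Icc 1 ⌊t⌋₊, (f k - (mu : ℂ)) -
          (mu : ℂ) * ((t - ⌊t⌋₊ : ℝ) : ℂ) := by
        rw [Finset.sum_sub_distrib]
        simp only [Finset.sum_const, Nat.card_Icc, Nat.add_sub_cancel, nsmul_eq_mul]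
        unfold S
        push_cast
        ring
      rw [e2]
      refine (norm_sub_le _ _).trans ?_
      have e3 : ‖(mu : ℂ) * ((t - ⌊t⌋₊ : ℝ) : ℂ)‖ ≤ 1 := by
        rw [norm_mul, Complex.norm_real, Complex.norm_real, Real.norm_of_nonneg hmu0]
        have e4 : 0 ≤ t - ⌊t⌋₊ := sub_nonneg.2 (Nat.floor_le ht0.le)
        have e5 : t - ⌊t⌋₊ ≤ 1 := by linarith [(Nat.lt_floor_add_one t).le]
        rw [Real.norm_of_nonneg e4]
        nlinarith
      linarith [hp ⌊t⌋₊]
    have e2 : ‖S f t - mu * t‖ ≤ 2 * t := by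
      refine (norm_sub_le _ _).trans ?_
      have e3 : ‖(mu : ℂ) * (t : ℂ)‖ ≤ t := by
        rw [norm_mul, Complex.norm_real, Complex.norm_real, Real.norm_of_nonneg hmu0,
          Real.norm_of_nonneg ht0.le]
        nlinarith
      linarith [hfS t ht0.le]
    have hn := norm_nonneg (S f t - mu * t)
    rcases hn.eq_or_lt with h | h
    · rw [← h]
      positivity
    · calc ‖S f t - mu * t‖ = ‖S f t - mu * t‖ ^ (2 * δ) * ‖S f t - mu * t‖ ^ (1 - 2 * δ) := by
            rw [← Real.rpow_add h]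
            simp
        _ ≤ (2 * (q : ℝ)) ^ (2 * δ) * (2 * t) ^ (1 - 2 * δ) := by
            have : 0 ≤ 1 - 2 * δ := by linarith
            gcongr
        _ = 2 * (q : ℝ) ^ (2 * δ) * t ^ (1 - 2 * δ) := by
            rw [Real.mul_rpow (by norm_num) (by positivity), Real.mul_rpow (by norm_num) ht0.le]
            have e6 : (2 : ℝ) ^ (2 * δ) * 2 ^ (1 - 2 * δ) = 2 := by
              rw [← Real.rpow_add (by norm_num)]
              simp
            calc (2 : ℝ) ^ (2 * δ) * (q : ℝ) ^ (2 * δ) * (2 ^ (1 - 2 * δ) * t ^ (1 - 2 * δ)) =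
                  ((2 : ℝ) ^ (2 * δ) * 2 ^ (1 - 2 * δ)) * (q : ℝ) ^ (2 * δ) *
                    t ^ (1 - 2 * δ) := by ring
              _ = _ := by rw [e6]
  -- integrability
  have hm : Measurable (fun t : ℝ => S f t) := by
    have : (fun t : ℝ => S f t) = (fun n : ℕ => ∑ k ∈ Finset.Icc 1 n, f k) ∘
        (fun t : ℝ => ⌊t⌋₊) := rfl
    rw [this]
    exact (measurable_from_nat).comp Nat.measurable_floor
  have hc : Measurable (fun t : ℝ => (t : ℂ) ^ (-(s + 1))) :=
    Complex.measurable_ofReal.pow_const _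
  have hb : ∀ t ∈ Set.Ioi (1 : ℝ), ‖(S f t - mu * t) * (t : ℂ) ^ (-(s + 1))‖ ≤
      2 * (q : ℝ) ^ (2 * δ) * t ^ (-(2 * δ) - 1) := by
    intro t ht
    have ht1 : (1 : ℝ) < t := ht
    have ht0 : 0 < t := zero_lt_one.trans ht1
    rw [norm_mul, norm_cpow_eq_rpow_re_of_pos ht0]
    have h2 := hD t ht1.le
    calc ‖S f t - mu * t‖ * t ^ (-(s + 1)).re ≤
        (2 * (q : ℝ) ^ (2 * δ) * t ^ (1 - 2 * δ)) * t ^ (-(2 : ℝ)) := by
          refine mul_le_mul h2 ?_ (by positivity) (by positivity)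
          refine Real.rpow_le_rpow_of_exponent_le ht1.le ?_
          simp only [neg_add_rev, add_re, neg_re, one_re]
          linarith
      _ = 2 * (q : ℝ) ^ (2 * δ) * t ^ (-(2 * δ) - 1) := by
          rw [mul_assoc, ← Real.rpow_add ht0]
          congr 2
          ring
  have hint : IntegrableOn (fun t : ℝ => 2 * (q : ℝ) ^ (2 * δ) * t ^ (-(2 * δ) - 1))
      (Set.Ioi 1) :=
    (integrableOn_Ioi_rpow_of_lt (by linarith) zero_lt_one).const_mul _
  have hI1 : IntegrableOn (fun t : ℝ => (S f t - mu * t) * (t : ℂ) ^ (-(s + 1)))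
      (Set.Ioi 1) := by
    refine Integrable.mono' hint ?_
      ((ae_restrict_iff' measurableSet_Ioi).mpr (Eventually.of_forall hb))
    exact ((hm.sub (measurable_const.mul Complex.measurable_ofReal)).mul hc).aestronglyMeasurable
  have hI2' : IntegrableOn (fun t : ℝ => (t : ℂ) ^ (-s)) (Set.Ioi 1) :=
    integrableOn_Ioi_cpow_of_lt (by rw [neg_re]; linarith) zero_lt_one
  have hcong : ∀ t ∈ Set.Ioi (1 : ℝ), S f t * (t : ℂ) ^ (-(s + 1)) =
      (S f t - mu * t) * (t : ℂ) ^ (-(s + 1)) + mu * (t : ℂ) ^ (-s) := by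
    intro t ht
    have ht1 : (1 : ℝ) < t := ht
    have ht0 : (t : ℂ) ≠ 0 := by
      exact_mod_cast (zero_lt_one.trans ht1).ne'
    have h5 : (t : ℂ) ^ (-s) = t * (t : ℂ) ^ (-(s + 1)) := by
      have h6 : -s = 1 + (-(s + 1)) := by ring
      rw [h6, Complex.cpow_add _ _ ht0, Complex.cpow_one]
    rw [h5]
    ring
  have hsplit : ∫ t in Set.Ioi (1 : ℝ), S f t * (t : ℂ) ^ (-(s + 1)) =
      (∫ t in Set.Ioi (1 : ℝ), (S f t - mu * t) * (t : ℂ) ^ (-(s + 1))) +
        mu * (1 / (s - 1)) := by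
    rw [setIntegral_congr_fun measurableSet_Ioi hcong, integral_add hI1 (hI2'.const_mul _),
      integral_const_mul, integral_Ioi_cpow_of_lt (by rw [neg_re]; linarith) zero_lt_one]
    congr 2
    rw [Complex.ofReal_one, Complex.one_cpow]
    have h6 : -s + 1 = -(s - 1) := by ring
    rw [h6, neg_div_neg_eq]
  have hrest : ‖∫ t in Set.Ioi (1 : ℝ), (S f t - mu * t) * (t : ℂ) ^ (-(s + 1))‖ ≤
      (q : ℝ) ^ (2 * δ) / δ := by
    refine (norm_integral_le_of_norm_le hint
      ((ae_restrict_iff' measurableSet_Ioi).mpr (Eventually.of_forall hb))).trans ?_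
    rw [integral_const_mul, integral_Ioi_rpow_of_lt (by linarith) zero_lt_one, Real.one_rpow]
    have h7 : -(2 * δ) - 1 + 1 = -(2 * δ) := by ring
    rw [h7, neg_div_neg_eq]
    apply le_of_eq
    field_simp
  rw [hL, norm_mul, hsplit]
  refine mul_le_mul_of_nonneg_left ?_ (norm_nonneg _)
  refine (norm_add_le _ _).trans ?_
  have h8 : ‖(mu : ℂ) * (1 / (s - 1))‖ ≤ 1 / ‖s - 1‖ := by
    rw [norm_mul, Complex.norm_real, Real.norm_of_nonneg hmu0, norm_div, norm_one]
    have : 0 ≤ 1 / ‖s - 1‖ := by positivity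
    nlinarith
  linarith

end Pool.Agent.H92.SW
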